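import Mathlib

/-!
Labelings, extended promotion and tangled labelings of a finite poset.
-/

set_option autoImplicit false

namespace Pool.Agent.Lib.MP_ac744f_co

variable {P : Type} [Fintype P] [PartialOrder P]

/-- A labeling is a bijection from the poset onto `{1, ..., n}`. -/
def IsLabeling (L : P → ℕ) : Prop := Set.BijOn L Set.univ (Set.Icc 1 (Fintype.card P))

/-- A labeling is a linear extension if it is order preserving. -/
def IsLinExt (L : P → ℕ) : Prop := ∀ x y : P, x ≤ y → L x ≤ L y

/-- `y` is the `L`-successor of `x`: the element above `x` with the smallest label. -/
def IsSucc (L : P → ℕ) (x y : P) : Prop := x < y ∧ ∀ y' : P, x < y' → L y ≤ L y'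

/-- The promotion chain: it starts at the element labelled 1 and follows successors. -/
inductive InChain (L : P → ℕ) : P → Prop
  | start (x : P) : L x = 1 → InChain L x
  | step (x y : P) : InChain L x → IsSucc L x y → InChain L y

open Classical in
/-- Extended promotion. On the chain, a non-maximal element gets the label of its successor
(the least label of an element above it) minus one, the final maximal element gets `n`;
all other labels drop by one. -/
noncomputable def prom (L : P → ℕ) (x : P) : ℕ :=
  if InChain L x then
    (if IsMax x then Fintype.card P else sInf (L '' {y | x < y}) - 1)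
  else L x - 1

/-- A labeling is tangled if `n ≥ 2` and `n - 2` promotions do not give a linear extension. -/
def Tangled (L : P → ℕ) : Prop :=
  2 ≤ Fintype.card P ∧ ¬ IsLinExt (prom^[Fintype.card P - 2] L)

end Pool.Agent.Lib.MP_ac744f_co
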