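import Pool.Agent.Lib.MP_ac744f_co.Defs

-- part Pool.Agent.Lib.MP_ac744f_co.Word
section

/-!
Words: promotion as a bubble pass, and the insertion process.
-/

set_option autoImplicit false
set_option linter.unusedSectionVars false

namespace Pool.Agent.Lib.MP_ac744f_co

variable {P : Type} [PartialOrder P] [DecidableEq P] [DecidableLT P]

def pass : P → List P → List P
  | c, [] => [c]
  | c, y :: t => if c < y then c :: pass y t else y :: pass c t

def ch : P → List P → List P
  | c, [] => [c]
  | c, y :: t => if c < y then c :: ch y t else ch c t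

def front : P → List P → List P
  | _, [] => []
  | c, y :: t => if c < y then c :: front y t else y :: front c t

def lastc : P → List P → P
  | c, [] => c
  | c, y :: t => if c < y then lastc y t else lastc c t

def step : List P → List P
  | [] => []
  | c :: t => pass c t

def fr : List P → List P
  | [] => []
  | c :: t => front c t

def ins : List P → P → List P
  | [], y => [y]
  | c :: r, y => if c < y then y :: ins r c else c :: ins r y

def rowsN : ℕ → List P → List P
  | 0, _ => []
  | _ + 1, [] => []
  | n + 1, c :: t => lastc c t :: rowsN n (front c t)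

def lab (w : List P) (x : P) : ℕ := w.idxOf x + 1

omit [DecidableEq P] in
theorem pass_perm (t : List P) : ∀ c : P, (pass c t).Perm (c :: t) := by
  induction t with
  | nil => intro c; simp [pass]
  | cons y t ih =>
    intro c
    by_cases h : c < y
    · simp only [pass, h, if_true]
      exact (ih y).cons c
    · simp only [pass, h, if_false]
      exact ((ih c).cons y).trans (List.Perm.swap _ _ _)

omit [DecidableEq P] in
theorem step_perm (w : List P) : (step w).Perm w := by
  cases w with
  | nil => simp [step]
  | cons c t => exact pass_perm t c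

omit [DecidableEq P] in
theorem length_front (t : List P) : ∀ c : P, (front c t).length = t.length := by
  induction t with
  | nil => intro c; simp [front]
  | cons y t ih =>
    intro c
    by_cases h : c < y <;> simp [front, h, ih]

omit [DecidableEq P] in
theorem take_pass (t : List P) : ∀ (c : P) (m : ℕ), m ≤ t.length →
    (pass c t).take m = front c (t.take m) := by
  induction t with
  | nil => intro c m hm; simp at hm; subst hm; simp [front]
  | cons y t ih =>
    intro c m hm
    cases m with
    | zero => simp [front]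
    | succ m =>
      simp only [List.length_cons, Nat.add_le_add_iff_right] at hm
      by_cases h : c < y <;> simp [pass, front, h, ih _ m hm]

omit [DecidableEq P] in
theorem take_step (w : List P) (m : ℕ) (hm : m + 1 ≤ w.length) :
    (step w).take m = fr (w.take (m + 1)) := by
  cases w with
  | nil => simp at hm
  | cons c t =>
    simp only [List.length_cons, Nat.add_le_add_iff_right] at hm
    simp [step, fr, take_pass t c m hm]

omit [DecidableEq P] in
theorem take_iter (i : ℕ) : ∀ (w : List P) (m : ℕ), m + i ≤ w.length →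
    (step^[i] w).take m = fr^[i] (w.take (m + i)) := by
  induction i with
  | zero => intro w m _; simp
  | succ i ih =>
    intro w m hm
    rw [Function.iterate_succ_apply, Function.iterate_succ_apply, ih (step w) m
      (by rw [(step_perm w).length_eq]; omega), take_step w (m + i) (by omega)]
    rfl

omit [DecidableEq P] in
theorem ch_spec (t : List P) : ∀ (c x : P), x ∈ ch c t → c ≤ x ∧ x ∈ c :: t := by
  induction t with
  | nil => intro c x hx; simp [ch] at hx; subst hx; simp
  | cons y t ih =>
    intro c x hx
    by_cases h : c < y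
    · simp only [ch, h, if_true, List.mem_cons] at hx
      rcases hx with rfl | hx
      · simp
      · obtain ⟨h1, h2⟩ := ih y x hx
        exact ⟨h.le.trans h1, List.mem_cons_of_mem _ h2⟩
    · simp only [ch, h, if_false] at hx
      obtain ⟨h1, h2⟩ := ih c x hx
      refine ⟨h1, ?_⟩
      rcases List.mem_cons.1 h2 with rfl | h2
      · simp
      · simp [h2]

omit [DecidableEq P] in
theorem self_mem_ch (t : List P) : ∀ c : P, c ∈ ch c t := by
  induction t with
  | nil => intro c; simp [ch]
  | cons y t ih =>
    intro c
    by_cases h : c < y <;> simp [ch, h, ih]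

theorem idx_off (t : List P) : ∀ (c x : P), (c :: t).Nodup → x ∈ t → x ∉ ch c t →
    (pass c t).idxOf x = t.idxOf x := by
  induction t with
  | nil => intro c x _ hx; simp at hx
  | cons y t ih =>
    intro c x hn hx hc
    have hcx : c ≠ x := by
      rintro rfl
      exact hc (self_mem_ch _ _)
    by_cases h : c < y
    · simp only [ch, h, if_true, List.mem_cons, not_or] at hc
      have hyx : y ≠ x := by
        rintro rfl
        exact hc.2 (self_mem_ch _ _)
      have hxt : x ∈ t := by
        rcases List.mem_cons.1 hx with rfl | hx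
        · exact absurd rfl hyx
        · exact hx
      simp only [pass, h, if_true]
      rw [List.idxOf_cons_ne _ hcx, List.idxOf_cons_ne _ hyx, ih y x hn.of_cons hxt hc.2]
    · simp only [ch, h, if_false] at hc
      simp only [pass, h, if_false]
      by_cases hyx : y = x
      · subst hyx; simp
      · have hxt : x ∈ t := by
          rcases List.mem_cons.1 hx with rfl | hx
          · exact absurd rfl hyx
          · exact hx
        have hn' : (c :: t).Nodup := by
          simp only [List.nodup_cons, List.mem_cons, not_or] at hn ⊢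
          exact ⟨hn.1.2, hn.2.2⟩
        rw [List.idxOf_cons_ne _ hyx, List.idxOf_cons_ne _ hyx, ih c x hn' hxt hc]

theorem idx_succ (t : List P) : ∀ (c x y' : P), (c :: t).Nodup → x ∈ ch c t → y' ∈ t → x < y' →
    (∀ y'' ∈ t, x < y'' → t.idxOf y' ≤ t.idxOf y'') →
    (pass c t).idxOf x = t.idxOf y' ∧ y' ∈ ch c t := by
  induction t with
  | nil => intro c x y' _ _ hy; simp at hy
  | cons y t ih =>
    intro c x y' hn hx hy hlt hmin
    by_cases h : c < y
    · simp only [ch, h, if_true, List.mem_cons] at hx ⊢
      simp only [pass, h, if_true]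
      by_cases hcx : c = x
      · subst hcx
        have h0 := hmin y (by simp) h
        simp only [List.idxOf_cons_self, Nat.le_zero] at h0
        have hyy : y = y' := by
          by_contra hne
          rw [List.idxOf_cons_ne _ hne] at h0
          omega
        subst hyy
        exact ⟨by simp, Or.inr (self_mem_ch _ _)⟩
      · have hx' : x ∈ ch y t := by
          rcases hx with rfl | hx
          · exact absurd rfl hcx
          · exact hx
        have hyx := (ch_spec t y x hx').1
        have hyy : y ≠ y' := by
          rintro rfl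
          exact absurd (hyx.trans_lt hlt) (lt_irrefl _)
        have hyt : y' ∈ t := by
          rcases List.mem_cons.1 hy with rfl | hy
          · exact absurd rfl hyy
          · exact hy
        have := ih y x y' hn.of_cons hx' hyt hlt (fun y'' hy'' hl => by
          have h1 := hmin y'' (List.mem_cons_of_mem _ hy'') hl
          have hy2 : y ≠ y'' := by
            rintro rfl
            exact absurd (hyx.trans_lt hl) (lt_irrefl _)
          rw [List.idxOf_cons_ne _ hyy, List.idxOf_cons_ne _ hy2] at h1
          omega)
        rw [List.idxOf_cons_ne _ hcx, List.idxOf_cons_ne _ hyy, this.1]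
        exact ⟨rfl, Or.inr this.2⟩
    · simp only [ch, h, if_false] at hx ⊢
      simp only [pass, h, if_false]
      have hcx := ch_spec t c x hx
      have hn' : (c :: t).Nodup := by
        simp only [List.nodup_cons, List.mem_cons, not_or] at hn ⊢
        exact ⟨hn.1.2, hn.2.2⟩
      have hne : ∀ y'', x < y'' → y ≠ y'' := by
        rintro y'' hl rfl
        exact h (hcx.1.trans_lt hl)
      have hyx : y ≠ x := by
        rintro rfl
        simp only [List.nodup_cons, List.mem_cons, not_or] at hn
        rcases List.mem_cons.1 hcx.2 with h1 | h1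
        · exact hn.1.1 h1.symm
        · exact hn.2.1 h1
      have hyt : y' ∈ t := by
        rcases List.mem_cons.1 hy with h1 | hy
        · exact absurd h1.symm (hne y' hlt)
        · exact hy
      have := ih c x y' hn' hx hyt hlt (fun y'' hy'' hl => by
        have h1 := hmin y'' (List.mem_cons_of_mem _ hy'') hl
        rw [List.idxOf_cons_ne _ (hne y' hlt), List.idxOf_cons_ne _ (hne y'' hl)] at h1
        omega)
      rw [List.idxOf_cons_ne _ hyx, List.idxOf_cons_ne _ (hne y' hlt), this.1]
      exact ⟨rfl, this.2⟩

theorem idx_top (t : List P) : ∀ (c x : P), (c :: t).Nodup → x ∈ ch c t →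
    (∀ y' ∈ t, ¬ x < y') → (pass c t).idxOf x = t.length := by
  induction t with
  | nil => intro c x _ hx _; simp [ch] at hx; subst hx; simp [pass]
  | cons y t ih =>
    intro c x hn hx hmax
    by_cases h : c < y
    · simp only [ch, h, if_true, List.mem_cons] at hx
      simp only [pass, h, if_true]
      have hcx : c ≠ x := by
        rintro rfl
        exact hmax y (by simp) h
      have hx' : x ∈ ch y t := by
        rcases hx with rfl | hx
        · exact absurd rfl hcx
        · exact hx
      rw [List.idxOf_cons_ne _ hcx, ih y x hn.of_cons hx'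
        (fun y' hy' => hmax y' (List.mem_cons_of_mem _ hy'))]
      simp
    · simp only [ch, h, if_false] at hx
      simp only [pass, h, if_false]
      have hcx := ch_spec t c x hx
      have hn' : (c :: t).Nodup := by
        simp only [List.nodup_cons, List.mem_cons, not_or] at hn ⊢
        exact ⟨hn.1.2, hn.2.2⟩
      have hyx : y ≠ x := by
        rintro rfl
        simp only [List.nodup_cons, List.mem_cons, not_or] at hn
        rcases List.mem_cons.1 hcx.2 with h1 | h1
        · exact hn.1.1 h1.symm
        · exact hn.2.1 h1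
      rw [List.idxOf_cons_ne _ hyx, ih c x hn' hx
        (fun y' hy' => hmax y' (List.mem_cons_of_mem _ hy'))]
      simp

/-- elements of the list chain are in the promotion chain -/
theorem inChain_of_ch (L : P → ℕ) (t : List P) : ∀ c : P, InChain L c → (∀ y, c < y → y ∈ t) →
    t.Pairwise (fun p q => L p ≤ L q) → ∀ x ∈ ch c t, InChain L x := by
  induction t with
  | nil => intro c hc _ _ x hx; simp [ch] at hx; subst hx; exact hc
  | cons y t ih =>
    intro c hc hab hp x hx
    rw [List.pairwise_cons] at hp
    by_cases h : c < y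
    · simp only [ch, h, if_true, List.mem_cons] at hx
      rcases hx with rfl | hx
      · exact hc
      · refine ih y (InChain.step c y hc ⟨h, fun y' hy' => ?_⟩) (fun y' hy' => ?_) hp.2 x hx
        · rcases List.mem_cons.1 (hab y' hy') with rfl | h1
          · exact le_rfl
          · exact hp.1 y' h1
        · rcases List.mem_cons.1 (hab y' (h.trans hy')) with rfl | h1
          · exact absurd hy' (lt_irrefl _)
          · exact h1
    · simp only [ch, h, if_false] at hx
      refine ih c hc (fun y' hy' => ?_) hp.2 x hx
      rcases List.mem_cons.1 (hab y' hy') with rfl | h1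
      · exact absurd hy' h
      · exact h1

theorem pairwise_idx (w : List P) (hn : w.Nodup) :
    w.Pairwise (fun p q => w.idxOf p < w.idxOf q) := by
  rw [List.pairwise_iff_getElem]
  intro i j hi hj hij
  rw [hn.idxOf_getElem, hn.idxOf_getElem]
  exact hij

variable [Fintype P]

theorem length_of_full (w : List P) (hn : w.Nodup) (hw : ∀ x, x ∈ w) :
    w.length = Fintype.card P := by
  rw [← List.toFinset_card_of_nodup hn]
  congr 1
  ext x
  simp [hw x]

theorem prom_lab (w : List P) (hn : w.Nodup) (hw : ∀ x, x ∈ w) :
    prom (lab w) = lab (step w) := by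
  cases w with
  | nil => funext x; exact absurd (hw x) (by simp)
  | cons c t =>
    have hct : c ∉ t := (List.nodup_cons.1 hn).1
    have hlab : ∀ y ∈ t, lab (c :: t) y = t.idxOf y + 2 := by
      intro y hy
      have : c ≠ y := by rintro rfl; exact hct hy
      simp [lab, List.idxOf_cons_ne _ this]
    have hup : ∀ x ∈ ch c t, ∀ y, x < y → y ∈ t := by
      intro x hx y hy
      rcases List.mem_cons.1 (hw y) with rfl | h1
      · exact absurd ((ch_spec t y x hx).1.trans_lt hy) (lt_irrefl _)
      · exact h1
    have hiff : ∀ x, InChain (lab (c :: t)) x ↔ x ∈ ch c t := by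
      intro x
      constructor
      · intro h
        induction h with
        | start x hx =>
          have : c = x := by
            by_contra hne
            simp [lab, List.idxOf_cons_ne _ hne] at hx
          subst this
          exact self_mem_ch _ _
        | step x y _ hs ih =>
          refine (idx_succ t c x y hn ih (hup x ih y hs.1) hs.1 (fun y'' hy'' hl => ?_)).2
          have := hs.2 y'' hl
          rw [hlab y (hup x ih y hs.1), hlab y'' hy''] at this
          omega
      · intro h
        refine inChain_of_ch _ t c (InChain.start c (by simp [lab]))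
          (hup c (self_mem_ch _ _)) ?_ x h
        refine (pairwise_idx t hn.of_cons).imp_of_mem ?_
        intro p q hp hq hpq
        rw [hlab p hp, hlab q hq]
        omega
    funext x
    unfold prom
    by_cases hx : x ∈ ch c t
    · rw [if_pos ((hiff x).2 hx)]
      by_cases hm : IsMax x
      · rw [if_pos hm]
        have := idx_top t c x hn hx (fun y' _ => hm.not_lt)
        simp only [lab, step, this]
        rw [← length_of_full _ hn hw]
        simp
      · rw [if_neg hm]
        have hne : (lab (c :: t) '' {y | x < y}).Nonempty := by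
          obtain ⟨y, hy⟩ := not_isMax_iff.1 hm
          exact ⟨_, y, hy, rfl⟩
        obtain ⟨y, hy, hye⟩ := Nat.sInf_mem hne
        have hyt := hup x hx y hy
        have := (idx_succ t c x y hn hx hyt hy (fun y'' hy'' hl => by
          have h1 : sInf (lab (c :: t) '' {y | x < y}) ≤ lab (c :: t) y'' :=
            Nat.sInf_le ⟨y'', hl, rfl⟩
          rw [← hye, hlab y hyt, hlab y'' hy''] at h1
          omega)).1
        rw [← hye, hlab y hyt]
        simp only [lab, step, this]
        omega
    · rw [if_neg (fun h => hx ((hiff x).1 h))]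
      have hxt : x ∈ t := by
        rcases List.mem_cons.1 (hw x) with rfl | h1
        · exact absurd (self_mem_ch _ _) hx
        · exact h1
      rw [hlab x hxt]
      simp only [lab, step, idx_off t c x hn hxt hx]
      omega

theorem prom_iter (i : ℕ) : ∀ (w : List P), w.Nodup → (∀ x, x ∈ w) →
    prom^[i] (lab w) = lab (step^[i] w) := by
  induction i with
  | zero => intro w _ _; rfl
  | succ i ih =>
    intro w hn hw
    rw [Function.iterate_succ_apply, Function.iterate_succ_apply, prom_lab w hn hw]
    exact ih _ ((step_perm w).nodup_iff.2 hn) (fun x => (step_perm w).mem_iff.2 (hw x))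

theorem lab_isLabeling (w : List P) (hn : w.Nodup) (hw : ∀ x, x ∈ w) : IsLabeling (lab w) := by
  have hl := length_of_full w hn hw
  refine ⟨fun x _ => ?_, fun x _ y _ h => ?_, fun m hm => ?_⟩
  · have := List.idxOf_lt_length_of_mem (hw x)
    simp only [lab, Set.mem_Icc]
    omega
  · simp only [lab, Nat.add_right_cancel_iff] at h
    exact (List.idxOf_inj (hw x)).1 h
  · simp only [Set.mem_Icc] at hm
    refine ⟨w[m - 1]'(by omega), trivial, ?_⟩
    simp only [lab, hn.idxOf_getElem]
    omega

omit [Fintype P] [PartialOrder P] [DecidableLT P] in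
theorem lab_inj (w w' : List P) (hn : w.Nodup) (hw : ∀ x, x ∈ w) (hn' : w'.Nodup)
    (hw' : ∀ x, x ∈ w') (h : lab w = lab w') : w = w' := by
  have hp : w.Perm w' := (List.perm_ext_iff_of_nodup hn hn').2 (fun a => by simp [hw a, hw' a])
  refine List.ext_getElem hp.length_eq (fun i h1 h2 => ?_)
  have h3 := congrFun h w[i]
  simp only [lab, hn.idxOf_getElem, Nat.add_right_cancel_iff] at h3
  have h4 := List.getElem_idxOf (List.idxOf_lt_length_of_mem (hw' w[i]))
  rw [← h4]
  congr 1
  exact h3.symm

omit [Fintype P] [DecidableEq P] in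
theorem front_snoc (t : List P) (y : P) : ∀ c : P, front c (t ++ [y]) =
    front c t ++ [if lastc c t < y then lastc c t else y] := by
  induction t with
  | nil => intro c; by_cases h : c < y <;> simp [front, lastc, h]
  | cons p t ih => intro c; by_cases h : c < p <;> simp [front, lastc, h, ih]

omit [Fintype P] [DecidableEq P] in
theorem lastc_snoc (t : List P) (y : P) : ∀ c : P, lastc c (t ++ [y]) =
    if lastc c t < y then y else lastc c t := by
  induction t with
  | nil => intro c; by_cases h : c < y <;> simp [lastc, h]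
  | cons p t ih => intro c; by_cases h : c < p <;> simp [lastc, h, ih]

omit [Fintype P] [DecidableEq P] in
theorem rowsN_snoc (n : ℕ) : ∀ (u : List P) (y : P), u.length = n →
    rowsN (n + 1) (u ++ [y]) = ins (rowsN n u) y := by
  induction n with
  | zero =>
    intro u y hu
    rw [List.length_eq_zero_iff] at hu
    subst hu
    simp [rowsN, ins, lastc]
  | succ n ih =>
    intro u y hu
    cases u with
    | nil => simp at hu
    | cons c t =>
      simp only [List.length_cons, Nat.add_right_cancel_iff] at hu
      simp only [List.cons_append, rowsN, ins, front_snoc, lastc_snoc]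
      rw [ih _ _ (by rw [length_front, hu])]
      by_cases h : lastc c t < y <;> simp [h]

omit [Fintype P] [DecidableEq P] in
theorem rowsN_eq (u : List P) : rowsN u.length u = u.foldl ins [] := by
  induction u using List.reverseRecOn with
  | nil => simp [rowsN]
  | append_singleton u y ih =>
    rw [List.length_append, List.length_singleton, rowsN_snoc _ u y rfl, ih]
    simp

omit [Fintype P] [DecidableEq P] in
theorem fr_iter_last (n : ℕ) : ∀ (u : List P) (a : P), u.length = n + 1 → (∀ c, ¬ c < a) →
    ∃ b, (rowsN (n + 1) u).getLast? = some b ∧ fr^[n] (u ++ [a]) = [b, a] := by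
  induction n with
  | zero =>
    intro u a hu _
    obtain ⟨b, rfl⟩ := List.length_eq_one_iff.1 hu
    exact ⟨b, by simp [rowsN, lastc], by simp⟩
  | succ n ih =>
    intro u a hu ha
    cases u with
    | nil => simp at hu
    | cons c t =>
      simp only [List.length_cons, Nat.add_right_cancel_iff] at hu
      obtain ⟨b, h1, h2⟩ := ih (front c t) a (by rw [length_front, hu]) ha
      refine ⟨b, ?_, ?_⟩
      · rw [rowsN, List.getLast?_cons, h1]
        rfl
      · rw [Function.iterate_succ_apply]
        simp only [List.cons_append, fr, front_snoc, ha, if_false]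
        exact h2

/-- A word ending in a minimal element `a` is tangled as soon as the insertion process of the
other letters ends with an element above `a`. -/
theorem tangled_of (u : List P) (a b : P) (hn : (u ++ [a]).Nodup) (hw : ∀ x, x ∈ u ++ [a])
    (ha : ∀ c, ¬ c < a) (hb : (u.foldl ins []).getLast? = some b) (hab : a < b) :
    Tangled (lab (u ++ [a])) := by
  have hl := length_of_full _ hn hw
  have hu : u ≠ [] := by
    rintro rfl
    simp at hb
  obtain ⟨n, hn'⟩ : ∃ n, u.length = n + 1 := by
    cases u with
    | nil => exact absurd rfl hu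
    | cons c t => exact ⟨t.length, rfl⟩
  simp only [List.length_append, List.length_singleton] at hl
  obtain ⟨b', h1, h2⟩ := fr_iter_last n u a hn' ha
  rw [← hn', rowsN_eq, hb] at h1
  obtain rfl : b = b' := by simpa using h1
  refine ⟨by omega, fun hle => ?_⟩
  have hc : Fintype.card P - 2 = n := by omega
  rw [hc, prom_iter n _ hn hw] at hle
  have h3 := take_iter n (u ++ [a]) 2 (by simp; omega)
  rw [List.take_of_length_le (l := u ++ [a]) (by simp; omega), h2] at h3
  have h4 := hle a b hab.le
  have h5 : step^[n] (u ++ [a]) = b :: a :: (step^[n] (u ++ [a])).drop 2 := by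
    conv_lhs => rw [← List.take_append_drop 2 (step^[n] (u ++ [a])), h3]
    rfl
  rw [h5] at h4
  simp [lab, List.idxOf_cons_ne _ hab.ne'] at h4

end Pool.Agent.Lib.MP_ac744f_co
end

-- part Pool.Agent.Lib.MP_ac744f_co.Ins
section

/-!
General facts about the insertion process.
-/

set_option autoImplicit false
set_option linter.unusedSectionVars false

namespace Pool.Agent.Lib.MP_ac744f_co

variable {P : Type} [PartialOrder P] [DecidableEq P] [DecidableLT P]

def endc : List P → P → P
  | [], e => e
  | c :: r, e => if c < e then endc r c else endc r e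

def act : List P → P → List P
  | [], _ => []
  | c :: m, e => if c < e then ins m c else c :: act m e

def mv (m : List P) (f : P) : List P := ins (m.erase f) f

def Bef (m : List P) (p q : P) : Prop := [p, q].Sublist m

def RevLin (m : List P) : Prop := m.Pairwise (fun p q => ¬ p < q)

theorem ins_perm (r : List P) : ∀ e : P, (ins r e).Perm (e :: r) := by
  induction r with
  | nil => intro e; simp [ins]
  | cons c r ih =>
    intro e
    by_cases h : c < e
    · simp only [ins, h, if_true]
      exact (ih c).cons e
    · simp only [ins, h, if_false]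
      exact ((ih e).cons c).trans (List.Perm.swap _ _ _)

theorem getLast_ins (r : List P) : ∀ e : P, (ins r e).getLast? = some (endc r e) := by
  induction r with
  | nil => intro e; simp [ins, endc]
  | cons c r ih =>
    intro e
    by_cases h : c < e <;> simp [ins, endc, h, List.getLast?_cons, ih]

theorem endc_filter (S : P → Bool) (hS : ∀ p q, p < q → S q → S p) (r : List P) :
    ∀ e : P, (∀ g, g < e → S g) → endc r e = endc (r.filter S) e := by
  induction r with
  | nil => intro e _; simp
  | cons c r ih =>
    intro e he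
    by_cases h : c < e
    · have hc := he c h
      simp only [endc, h, if_true, List.filter_cons, hc]
      exact ih c (fun g hg => hS g c hg hc)
    · by_cases hc : S c
      · simp only [endc, h, if_false, List.filter_cons, hc, if_true]
        exact ih e he
      · simp only [endc, h, if_false, List.filter_cons, hc]
        exact ih e he

theorem endc_min (r : List P) (e : P) (h : ∀ g ∈ r, ¬ g < e) : endc r e = e := by
  induction r with
  | nil => rfl
  | cons c r ih =>
    simp only [endc, h c (by simp), if_false]
    exact ih (fun g hg => h g (List.mem_cons_of_mem _ hg))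

theorem ins_filter (S : P → Bool) (hS : ∀ p q, p < q → S q → S p) (r : List P) :
    ∀ e : P, S e → (ins r e).filter S = ins (r.filter S) e := by
  induction r with
  | nil => intro e he; simp [ins, he]
  | cons c r ih =>
    intro e he
    by_cases h : c < e
    · have hc := hS c e h he
      simp only [ins, h, if_true, List.filter_cons, hc, he]
      rw [ih c hc]
    · by_cases hc : S c
      · simp only [ins, h, if_false, List.filter_cons, hc, if_true]
        rw [ih e he]
      · simp only [ins, h, if_false, List.filter_cons, hc]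
        exact ih e he

theorem ins_filter_top (S : P → Bool) (hS : ∀ p q, p < q → S q → S p) (e : P) (he : ¬ S e)
    (hl : ∀ g, g < e → S g) (r : List P) : (ins r e).filter S = act (r.filter S) e := by
  induction r with
  | nil => simp [ins, he, act]
  | cons c r ih =>
    by_cases h : c < e
    · have hc := hl c h
      simp only [ins, h, if_true, List.filter_cons, hc, he, act]
      exact ins_filter S hS r c hc
    · by_cases hc : S c
      · simp only [ins, h, if_false, List.filter_cons, hc, if_true, act]
        rw [ih]
      · simp only [ins, h, if_false, List.filter_cons, hc]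
        exact ih

theorem ins_append (a b : List P) (e : P) (h : ∀ g ∈ a, ¬ g < e) :
    ins (a ++ b) e = a ++ ins b e := by
  induction a with
  | nil => rfl
  | cons c a ih =>
    simp only [List.cons_append, ins, h c (by simp), if_false]
    rw [ih (fun g hg => h g (List.mem_cons_of_mem _ hg))]

theorem ins_min (r : List P) (e : P) (h : ∀ g ∈ r, ¬ g < e) : ins r e = r ++ [e] := by
  have := ins_append r [] e h
  simpa [ins] using this

theorem revLin_ins (r : List P) : ∀ e : P, RevLin r → RevLin (ins r e) := by
  induction r with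
  | nil => intro e _; simp [ins, RevLin]
  | cons c r ih =>
    intro e hr
    unfold RevLin at hr ⊢
    rw [List.pairwise_cons] at hr
    by_cases h : c < e
    · simp only [ins, h, if_true, List.pairwise_cons]
      refine ⟨fun g hg => ?_, ih c hr.2⟩
      rcases List.mem_cons.1 ((ins_perm r c).mem_iff.1 hg) with rfl | hg
      · exact h.not_gt
      · exact fun hl => hr.1 g hg (h.trans hl)
    · simp only [ins, h, if_false, List.pairwise_cons]
      refine ⟨fun g hg => ?_, ih e hr.2⟩
      rcases List.mem_cons.1 ((ins_perm r e).mem_iff.1 hg) with rfl | hg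
      · exact h
      · exact hr.1 g hg

theorem bef_mem {m : List P} {p q : P} (h : Bef m p q) : p ∈ m ∧ q ∈ m :=
  ⟨h.subset (by simp), h.subset (by simp)⟩

theorem bef_idx {m : List P} (hn : m.Nodup) {p q : P} (h : Bef m p q) :
    m.idxOf p < m.idxOf q := by
  have := (pairwise_idx m hn).sublist h
  simpa using this

theorem bef_total (m : List P) {p q : P} (hp : p ∈ m) (hq : q ∈ m) (hne : p ≠ q) :
    Bef m p q ∨ Bef m q p := by
  induction m with
  | nil => simp at hp
  | cons c m ih =>
    unfold Bef at *
    rcases List.mem_cons.1 hp with rfl | hp' <;> rcases List.mem_cons.1 hq with rfl | hq'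
    · exact absurd rfl hne
    · exact Or.inl (List.Sublist.cons_cons _ (List.singleton_sublist.2 hq'))
    · exact Or.inr (List.Sublist.cons_cons _ (List.singleton_sublist.2 hp'))
    · exact (ih hp' hq').imp (fun h => h.cons _) (fun h => h.cons _)

theorem bef_trans {m : List P} (hn : m.Nodup) {p q s : P} (h1 : Bef m p q) (h2 : Bef m q s) :
    Bef m p s := by
  have i1 := bef_idx hn h1
  have i2 := bef_idx hn h2
  have hne : p ≠ s := by rintro rfl; omega
  rcases bef_total m (bef_mem h1).1 (bef_mem h2).2 hne with h | h
  · exact h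
  · have := bef_idx hn h
    omega

theorem bef_of_lt {m : List P} (hr : RevLin m) {p q : P} (hp : p ∈ m) (hq : q ∈ m)
    (h : q < p) : Bef m p q := by
  rcases bef_total m hp hq h.ne' with h1 | h1
  · exact h1
  · have := List.Pairwise.sublist h1 hr
    simp [h] at this

/-- `f` is the first element of `m` below `e`. -/
def First (m : List P) (e f : P) : Prop := f ∈ m ∧ f < e ∧ ∀ g, g < e → ¬ Bef m g f

theorem act_cases (m : List P) (hn : m.Nodup) (e : P) :
    ((∀ g ∈ m, ¬ g < e) ∧ act m e = m) ∨ ∃ f, First m e f ∧ act m e = mv m f := by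
  induction m with
  | nil => simp [act]
  | cons c m ih =>
    have hc := (List.nodup_cons.1 hn).1
    by_cases h : c < e
    · refine Or.inr ⟨c, ⟨by simp, h, fun g _ hb => ?_⟩, by simp [act, h, mv]⟩
      have := bef_idx hn hb
      simp at this
    · rcases ih hn.of_cons with h1 | ⟨f, h1, h2⟩
      · refine Or.inl ⟨?_, by simp [act, h, h1.2]⟩
        intro g hg
        rcases List.mem_cons.1 hg with rfl | hg
        · exact h
        · exact h1.1 g hg
      · have hcf : c ≠ f := by rintro rfl; exact hc h1.1
        refine Or.inr ⟨f, ⟨List.mem_cons_of_mem _ h1.1, h1.2.1, fun g hg hb => ?_⟩, ?_⟩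
        · unfold Bef at hb
          rcases List.sublist_cons_iff.1 hb with hb | ⟨r, hr, _⟩
          · exact h1.2.2 g hg hb
          · simp only [List.cons.injEq] at hr
            exact h (hr.1 ▸ hg)
        · have hl : ¬ c < f := fun hl => h (hl.trans h1.2.1)
          simp only [act, h, if_false, h2, mv]
          rw [List.erase_cons_tail (by simpa using hcf)]
          simp [ins, hl]

theorem mv_perm_mem (m : List P) (f g : P) : g ∈ mv m f ↔ g = f ∨ g ∈ m := by
  unfold mv
  rw [(ins_perm _ _).mem_iff, List.mem_cons]
  by_cases h : g = f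
  · simp [h]
  · simp [h, List.mem_erase_of_ne h]

theorem mv_nodup {m : List P} (hn : m.Nodup) (f : P) : (mv m f).Nodup := by
  unfold mv
  rw [(ins_perm _ _).nodup_iff, List.nodup_cons]
  exact ⟨hn.not_mem_erase, hn.erase f⟩

theorem mv_revLin {m : List P} (hr : RevLin m) (f : P) : RevLin (mv m f) :=
  revLin_ins _ _ (List.Pairwise.sublist List.erase_sublist hr)

/-- explicit form of an insertion when only one minimal element lies below -/
theorem ins_mid (r : List P) (hn : r.Nodup) (f s : P) (hs : ∀ g, g < f ↔ g = s) (hm : ∀ g, ¬ g < s)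
    (hsr : s ∈ r) : ∃ a b, r = a ++ s :: b ∧ ins r f = a ++ f :: (b ++ [s]) := by
  obtain ⟨a, b, rfl⟩ := List.append_of_mem hsr
  refine ⟨a, b, rfl, ?_⟩
  have hsa : s ∉ a := by
    intro h
    have := List.nodup_append.1 hn
    exact this.2.2 s h s (by simp) rfl
  rw [ins_append a _ f (fun g hg hl => hsa ((hs g).1 hl ▸ hg))]
  simp only [ins, (hs s).2 rfl, if_true]
  rw [ins_min b s (fun g _ => hm g)]

/-- minimal elements, and elements covering exactly one minimal element -/
def Low (f : P) : Prop := (∀ g, ¬ g < f) ∨ ∃ s, (∀ g, g < f ↔ g = s) ∧ ∀ g, ¬ g < s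

theorem mv_form {m : List P} (hn : m.Nodup) {f : P} (hf : Low f) :
    ((∀ g ∈ m, ¬ g < f) ∧ mv m f = m.erase f ++ [f]) ∨
    ∃ s a b, s < f ∧ (∀ g, g < f → g = s) ∧ m.erase f = a ++ s :: b ∧
      mv m f = a ++ f :: (b ++ [s]) := by
  by_cases h : ∀ g ∈ m, ¬ g < f
  · exact Or.inl ⟨h, ins_min _ _ (fun g hg => h g (List.mem_of_mem_erase hg))⟩
  · push Not at h
    obtain ⟨g, hg, hl⟩ := h
    rcases hf with hf | ⟨s, hs, hm⟩
    · exact absurd hl (hf g)
    · obtain rfl := (hs g).1 hl
      obtain ⟨a, b, h1, h2⟩ := ins_mid (m.erase f) (hn.erase f) f g hs hm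
        ((List.mem_erase_of_ne hl.ne).2 hg)
      exact Or.inr ⟨g, a, b, hl, fun g' hg' => (hs g').1 hg', h1, h2⟩

theorem bef_erase {m : List P} {p q f : P} (h : Bef m p q) (hp : p ≠ f) (hq : q ≠ f) :
    Bef (m.erase f) p q := by
  have := List.Sublist.erase f h
  rwa [List.erase_of_not_mem (by simp [hp.symm, hq.symm])] at this

theorem bef_snoc {m : List P} {p : P} (hp : p ∈ m) (f : P) : Bef (m ++ [f]) p f :=
  (List.singleton_sublist.2 hp).append (List.Sublist.refl [f])

theorem bef_mv {m : List P} (hn : m.Nodup) {f p q : P} (hf : Low f) (h : Bef m p q) (hp : p ≠ f)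
    (hq : q ≠ f) (hl : ¬ p < f) : Bef (mv m f) p q := by
  have h1 := bef_erase h hp hq
  rcases mv_form hn hf with ⟨_, h2⟩ | ⟨s, a, b, hs, _, h2, h3⟩
  · rw [h2]
    exact h1.trans (List.sublist_append_left _ _)
  · have hps : p ≠ s := by rintro rfl; exact hl hs
    have hn' := hn.erase f
    rw [h2] at h1 hn'
    rw [h3]
    by_cases hqs : q = s
    · subst hqs
      have : p ∈ a ++ f :: b := by
        have := (bef_mem h1).1
        simp only [List.mem_append, List.mem_cons] at this ⊢
        tauto
      simpa using bef_snoc this q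
    · have h4 := bef_erase h1 hps hqs
      have hsa : s ∉ a := fun h' => (List.nodup_append.1 hn').2.2 s h' s (by simp) rfl
      rw [List.erase_append_right _ hsa, List.erase_cons_head] at h4
      exact h4.trans ((List.Sublist.refl a).append ((List.sublist_append_left b [s]).cons f))

theorem bef_mv_self {m : List P} (hn : m.Nodup) (hr : RevLin m) {f p : P} (hf : Low f)
    (hp : p ∈ m) (hne : p ≠ f) (hl : ∀ g, g < f → g < p) : Bef (mv m f) p f := by
  have hp' : p ∈ m.erase f := (List.mem_erase_of_ne hne).2 hp
  rcases mv_form hn hf with ⟨_, h2⟩ | ⟨s, a, b, hs, _, h2, h3⟩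
  · rw [h2]
    exact bef_snoc hp' f
  · have hn' := hn.erase f
    have hr' : RevLin (m.erase f) := List.Pairwise.sublist List.erase_sublist hr
    rw [h2] at hp' hn' hr'
    have hsp := hl s hs
    have hpa : p ∈ a := by
      rcases List.mem_append.1 hp' with h | h
      · exact h
      · rcases List.mem_cons.1 h with h | h
        · exact absurd h hsp.ne'
        · have := (List.pairwise_append.1 hr').2.1
          exact absurd hsp ((List.pairwise_cons.1 this).1 p h)
    rw [h3]
    exact (List.singleton_sublist.2 hpa).append (List.singleton_sublist.2 (by simp))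

theorem idx_ins (y : P) (r : List P) : ∀ c : P, y ∈ r → ¬ y ≤ c →
    (ins r c).idxOf y = r.idxOf y := by
  induction r with
  | nil => intro c hy; simp at hy
  | cons d r ih =>
    intro c hy hc
    have hcy : c ≠ y := by rintro rfl; exact hc le_rfl
    by_cases h : d < c
    · have hdy : d ≠ y := by rintro rfl; exact hc h.le
      have hy' : y ∈ r := by
        rcases List.mem_cons.1 hy with h1 | h1
        · exact absurd h1.symm hdy
        · exact h1
      simp only [ins, h, if_true]
      rw [List.idxOf_cons_ne _ hcy, List.idxOf_cons_ne _ hdy,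
        ih d hy' (fun hl => hc (hl.trans h.le))]
    · simp only [ins, h, if_false]
      by_cases hdy : d = y
      · subst hdy; simp
      · have hy' : y ∈ r := by
          rcases List.mem_cons.1 hy with h1 | h1
          · exact absurd h1.symm hdy
          · exact h1
        rw [List.idxOf_cons_ne _ hdy, List.idxOf_cons_ne _ hdy, ih c hy' hc]

theorem mv_filter (S : P → Bool) (hS : ∀ p q, p < q → S q → S p) (m : List P) (f : P)
    (hf : S f) : (mv m f).filter S = mv (m.filter S) f := by
  unfold mv
  rw [ins_filter S hS _ f hf, List.erase_filter]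
  
theorem mv_filter_off (S : P → Bool) {m : List P} (hn : m.Nodup) {f : P} (hl : Low f)
    (hf : ¬ S f) : ((∀ g ∈ m, ¬ g < f) ∧ (mv m f).filter S = m.filter S) ∨
    ∃ s ∈ m, s < f ∧ (mv m f).filter S = (m.filter S).erase s ++ [s].filter S := by
  have he : (m.erase f).filter S = m.filter S := by
    rw [← List.erase_filter, List.erase_of_not_mem (by simp [hf])]
  rcases mv_form hn hl with ⟨h1, h2⟩ | ⟨s, a, b, hs, _, h2, h3⟩
  · exact Or.inl ⟨h1, by rw [h2, List.filter_append, he]; simp [hf]⟩
  · refine Or.inr ⟨s, List.mem_of_mem_erase (h2 ▸ (by simp : s ∈ a ++ s :: b)), hs, ?_⟩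
    have hn' := hn.erase f
    rw [h2] at hn'
    have hsa : s ∉ a := fun h' => (List.nodup_append.1 hn').2.2 s h' s (by simp) rfl
    rw [← he, List.erase_filter, h2, h3, List.erase_append_right _ hsa, List.erase_cons_head]
    simp [hf]

end Pool.Agent.Lib.MP_ac744f_co
end

-- part Pool.Agent.Lib.MP_ac744f_co.Pos
section

/-!
The poset used in the counterexample and its one-step dynamics.
-/

set_option autoImplicit false
set_option linter.unusedSectionVars false

namespace Pool.Agent.Lib.MP_ac744f_co

/-- Elements: two minimal elements `sa`, `sb`; the queue elements `x`, `y`; the queue tops `z`;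
the refreshers `w2` of `y` with their private competitors `v`; the refreshers `w1` of each `v`
with their private competitors `c`. -/
inductive El (A k K r M j : ℕ) : Type
  | sa | sb
  | x (i : Fin A)
  | y
  | z (i : Fin k)
  | w2 (l : Fin K)
  | v (l : Fin K) (i : Fin r)
  | w1 (l : Fin K) (i : Fin r) (m : Fin M)
  | c (l : Fin K) (i : Fin r) (m : Fin M) (s : Fin j)
  deriving DecidableEq, Fintype

variable {A k K r M j : ℕ}

namespace El

def ltb : El A k K r M j → El A k K r M j → Bool
  | sa, y => true
  | sa, z _ => true
  | sa, w2 _ => true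
  | sa, v _ _ => true
  | sa, w1 _ _ _ => true
  | sa, c _ _ _ _ => true
  | sb, x _ => true
  | sb, z _ => true
  | x _, z _ => true
  | y, z _ => true
  | y, w2 _ => true
  | v l _, w2 l' => decide (l = l')
  | v l i, w1 l' i' _ => decide (l = l' ∧ i = i')
  | c l i m _, w1 l' i' m' => decide (l = l' ∧ i = i' ∧ m = m')
  | _, _ => false

instance : IsStrictOrder (El A k K r M j) (fun p q => ltb p q = true) where
  irrefl p := by cases p <;> simp [ltb]
  trans p q s := by
    cases p <;> cases q <;> simp only [ltb, Bool.false_eq_true, false_imp_iff] <;>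
      cases s <;> simp

instance : PartialOrder (El A k K r M j) := partialOrderOfSO (fun p q => ltb p q = true)

theorem lt_iff (p q : El A k K r M j) : p < q ↔ ltb p q = true := Iff.rfl

instance : DecidableLT (El A k K r M j) := fun p q => decidable_of_iff _ (lt_iff p q).symm

def low : El A k K r M j → Bool
  | z _ => false
  | w2 _ => false
  | w1 _ _ _ => false
  | _ => true

/-- the elements seen by the queue tops -/
def qu : El A k K r M j → Bool
  | sa => true
  | sb => true
  | x _ => true
  | y => true
  | _ => false

theorem low_of_lt {p q : El A k K r M j} (h : p < q) : low p = true := by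
  rw [lt_iff] at h
  cases p <;> cases q <;> simp_all [ltb, low]

theorem qu_down (p q : El A k K r M j) (h : p < q) (hq : qu q = true) : qu p = true := by
  rw [lt_iff] at h
  cases p <;> cases q <;> simp_all [ltb, qu]

theorem not_lt_sa (g : El A k K r M j) : ¬ g < sa := by
  rw [lt_iff]; cases g <;> simp [ltb]

theorem not_lt_sb (g : El A k K r M j) : ¬ g < sb := by
  rw [lt_iff]; cases g <;> simp [ltb]

theorem lt_x {g : El A k K r M j} {i : Fin A} : g < x i ↔ g = sb := by
  rw [lt_iff]; cases g <;> simp [ltb]

theorem lt_y {g : El A k K r M j} : g < y ↔ g = sa := by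
  rw [lt_iff]; cases g <;> simp [ltb]

theorem lt_v {g : El A k K r M j} {l : Fin K} {i : Fin r} : g < v l i ↔ g = sa := by
  rw [lt_iff]; cases g <;> simp [ltb]

theorem lt_c {g : El A k K r M j} {l : Fin K} {i : Fin r} {m : Fin M} {s : Fin j} :
    g < c l i m s ↔ g = sa := by
  rw [lt_iff]; cases g <;> simp [ltb]

theorem lt_z {g : El A k K r M j} {i : Fin k} : g < z i ↔ qu g = true := by
  rw [lt_iff]; cases g <;> simp [ltb, qu]

theorem lt_w2 {g : El A k K r M j} {l : Fin K} :
    g < w2 l ↔ g = sa ∨ g = y ∨ ∃ i, g = v l i := by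
  rw [lt_iff]; cases g <;> simp [ltb]

theorem lt_w1 {g : El A k K r M j} {l : Fin K} {i : Fin r} {m : Fin M} :
    g < w1 l i m ↔ g = sa ∨ g = v l i ∨ ∃ s, g = c l i m s := by
  rw [lt_iff]; cases g <;> simp [ltb]

theorem y_lt {e : El A k K r M j} : y < e ↔ (∃ i, e = z i) ∨ ∃ l, e = w2 l := by
  rw [lt_iff]; cases e <;> simp [ltb]

theorem v_lt {e : El A k K r M j} {l : Fin K} {i : Fin r} :
    v l i < e ↔ e = w2 l ∨ ∃ m, e = w1 l i m := by
  rw [lt_iff]; cases e <;> simp [ltb] <;> tauto

theorem c_lt {e : El A k K r M j} {l : Fin K} {i : Fin r} {m : Fin M} {s : Fin j} :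
    c l i m s < e ↔ e = w1 l i m := by
  rw [lt_iff]; cases e <;> simp [ltb]
  tauto

theorem isLow {f : El A k K r M j} (h : low f = true) : Low f := by
  cases f with
  | sa => exact Or.inl not_lt_sa
  | sb => exact Or.inl not_lt_sb
  | x i => exact Or.inr ⟨sb, fun _ => lt_x, not_lt_sb⟩
  | y => exact Or.inr ⟨sa, fun _ => lt_y, not_lt_sa⟩
  | v l i => exact Or.inr ⟨sa, fun _ => lt_v, not_lt_sa⟩
  | c l i m s => exact Or.inr ⟨sa, fun _ => lt_c, not_lt_sa⟩
  | z i => simp [low] at h
  | w2 l => simp [low] at h
  | w1 l i m => simp [low] at h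

end El

open El

/-- the order of the low elements after the arrivals `p` -/
def sta (p : List (El A k K r M j)) : List (El A k K r M j) := (p.foldl ins []).filter low

theorem foldl_perm {P : Type} [PartialOrder P] [DecidableEq P] [DecidableLT P] (p : List P) :
    (p.foldl ins []).Perm p := by
  induction p using List.reverseRecOn with
  | nil => simp
  | append_singleton p e ih =>
    rw [List.foldl_append, List.foldl_cons, List.foldl_nil]
    exact ((ins_perm _ e).trans (ih.cons e)).trans (List.perm_append_singleton e p).symm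

theorem foldl_revLin {P : Type} [PartialOrder P] [DecidableEq P] [DecidableLT P] (p : List P) :
    RevLin (p.foldl ins []) := by
  induction p using List.reverseRecOn with
  | nil => simp [RevLin]
  | append_singleton p e ih =>
    rw [List.foldl_append, List.foldl_cons, List.foldl_nil]
    exact revLin_ins _ e ih

theorem mem_sta {p : List (El A k K r M j)} {g : El A k K r M j} :
    g ∈ sta p ↔ g ∈ p ∧ low g = true := by
  simp [sta, (foldl_perm p).mem_iff]

theorem sta_nodup {p : List (El A k K r M j)} (hn : p.Nodup) : (sta p).Nodup :=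
  ((foldl_perm p).nodup_iff.2 hn).filter _

theorem sta_revLin (p : List (El A k K r M j)) : RevLin (sta p) :=
  List.Pairwise.sublist List.filter_sublist (foldl_revLin p)

/-- One arrival either changes nothing or touches one low element. -/
theorem sta_step (p : List (El A k K r M j)) (e : El A k K r M j) (hn : (p ++ [e]).Nodup) :
    (low e = false ∧ (∀ g ∈ p, ¬ g < e) ∧ sta (p ++ [e]) = sta p) ∨
    ∃ f, low f = true ∧ (f = e ∨ (low e = false ∧ First (sta p) e f)) ∧
      sta (p ++ [e]) = mv (sta p) f := by
  have hp : p.Nodup := (List.nodup_append.1 hn).1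
  have hep : e ∉ p := fun h => (List.nodup_append.1 hn).2.2 e h e (by simp) rfl
  have h0 : sta (p ++ [e]) = (ins (p.foldl ins []) e).filter low := by
    simp [sta]
  cases he : low e with
  | true =>
    refine Or.inr ⟨e, he, Or.inl rfl, ?_⟩
    rw [h0, ins_filter low (fun p q h _ => low_of_lt h) _ e he, mv,
      List.erase_of_not_mem (fun h => hep (mem_sta.1 h).1)]
    rfl
  | false =>
    rw [h0, ins_filter_top low (fun p q h _ => low_of_lt h) e (by simp [he])
      (fun g hg => low_of_lt hg)]
    rcases act_cases (sta p) (sta_nodup hp) e with ⟨h1, h2⟩ | ⟨f, h1, h2⟩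
    · exact Or.inl ⟨rfl, fun g hg hl => h1 g (mem_sta.2 ⟨hg, low_of_lt hl⟩) hl, h2⟩
    · exact Or.inr ⟨f, low_of_lt h1.2.1, Or.inr ⟨rfl, h1⟩, h2⟩

/-- the queue -/
def psi (p : List (El A k K r M j)) : List (El A k K r M j) := (sta p).filter qu

theorem endc_z (p : List (El A k K r M j)) (i : Fin k) :
    endc (p.foldl ins []) (z i) = endc (psi p) (z i) := by
  rw [endc_filter low (fun p q h _ => low_of_lt h) _ _ (fun g hg => low_of_lt hg),
    endc_filter qu qu_down _ _ (fun g hg => lt_z.1 hg)]
  rfl

end Pool.Agent.Lib.MP_ac744f_co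
end

-- part Pool.Agent.Lib.MP_ac744f_co.Dyn
section

/-!
The clock: on the good event the slot of `y` is frozen in phase 3.
-/

set_option autoImplicit false
set_option linter.unusedSectionVars false

namespace Pool.Agent.Lib.MP_ac744f_co

open El

variable {A k K r M j : ℕ}

structure Good (b : El A k K r M j → ℕ) : Prop where
  hx : ∀ i, b (x i) = 0
  hy : b y = 0
  hsa : b sa = 0
  hsb : b sb = 0
  hz : ∀ i, b (z i) = 0 ∨ b (z i) = 4
  hw : ∀ l, b (w2 l) ≠ 1 ∧ b (w2 l) ≠ 2
  hfire : ∃ l, b (w2 l) = 3
  hfro : ∀ l, ∃ i, b (v l i) = 2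
  hkill : ∀ l i, ∃ m, b (w1 l i m) = 1 ∧ ∀ s, b (c l i m s) ≠ 0
  hsafe : ∀ l i m, ∃ s, b (c l i m s) ≤ 1

structure Ctx (b : El A k K r M j → ℕ) (s0 : El A k K r M j) (i0 : Fin k)
    (u : List (El A k K r M j)) : Prop where
  nd : u.Nodup
  mem : ∀ e, e ∈ u ↔ e ≠ s0 ∧ e ≠ z i0
  srt : u.Pairwise (fun p q => b p ≤ b q)
  star : s0 = sa ∨ s0 = sb

theorem prefix_ind {α : Type} (u : List α) (I : List α → Prop) (h0 : I [])
    (hs : ∀ p e, p ++ [e] <+: u → I p → I (p ++ [e])) : ∀ p, p <+: u → I p := by
  intro p
  induction p using List.reverseRecOn with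
  | nil => exact fun _ => h0
  | append_singleton p e ih =>
    exact fun h => hs p e h (ih ((List.prefix_append p [e]).trans h))

variable {b : El A k K r M j → ℕ} {s0 : El A k K r M j} {i0 : Fin k}
  {u : List (El A k K r M j)}

theorem Ctx.pnd (C : Ctx b s0 i0 u) {p : List (El A k K r M j)} (h : p <+: u) : p.Nodup :=
  C.nd.sublist h.sublist

theorem Ctx.pnd' (C : Ctx b s0 i0 u) {p : List (El A k K r M j)} {e : El A k K r M j}
    (h : p ++ [e] <+: u) : (sta p).Nodup :=
  sta_nodup (List.nodup_append.1 (C.pnd h)).1

theorem Ctx.new (C : Ctx b s0 i0 u) {p : List (El A k K r M j)} {e : El A k K r M j}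
    (h : p ++ [e] <+: u) : e ∉ p :=
  fun he => (List.nodup_append.1 (C.pnd h)).2.2 e he e (by simp) rfl

theorem Ctx.le (C : Ctx b s0 i0 u) {p : List (El A k K r M j)} {e : El A k K r M j}
    (h : p ++ [e] <+: u) {g : El A k K r M j} (hg : g ∈ p ++ [e]) : b g ≤ b e := by
  rcases List.mem_append.1 hg with hg | hg
  · exact (List.pairwise_append.1 (C.srt.sublist h.sublist)).2.2 g hg e (by simp)
  · simp only [List.mem_singleton] at hg
    rw [hg]

theorem Ctx.early (C : Ctx b s0 i0 u) {p : List (El A k K r M j)} {e : El A k K r M j}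
    (h : p ++ [e] <+: u) {g : El A k K r M j} (hg : g ∈ u) (hl : b g < b e) : g ∈ p := by
  obtain ⟨t, rfl⟩ := h
  have hs := C.srt
  rw [List.append_assoc, List.singleton_append] at hs hg
  rcases List.mem_append.1 hg with hg | hg
  · exact hg
  · rcases List.mem_cons.1 hg with rfl | hg
    · omega
    · have := (List.pairwise_cons.1 (List.pairwise_append.1 hs).2.1).1 g hg
      omega

theorem Ctx.mem_y (C : Ctx b s0 i0 u) : y ∈ u := by
  rw [C.mem]; rcases C.star with h | h <;> simp [h]

theorem Ctx.mem_x (C : Ctx b s0 i0 u) (i : Fin A) : x i ∈ u := by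
  rw [C.mem]; rcases C.star with h | h <;> simp [h]

theorem Ctx.mem_v (C : Ctx b s0 i0 u) (l : Fin K) (i : Fin r) : v l i ∈ u := by
  rw [C.mem]; rcases C.star with h | h <;> simp [h]

theorem Ctx.mem_w2 (C : Ctx b s0 i0 u) (l : Fin K) : w2 l ∈ u := by
  rw [C.mem]; rcases C.star with h | h <;> simp [h]

theorem Ctx.mem_w1 (C : Ctx b s0 i0 u) (l : Fin K) (i : Fin r) (m : Fin M) :
    w1 l i m ∈ u := by
  rw [C.mem]; rcases C.star with h | h <;> simp [h]

theorem Ctx.mem_c (C : Ctx b s0 i0 u) (l : Fin K) (i : Fin r) (m : Fin M) (s : Fin j) :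
    c l i m s ∈ u := by
  rw [C.mem]; rcases C.star with h | h <;> simp [h]

/-- elements covering exactly `sa` -/
def Va (f : El A k K r M j) : Prop := low f = true ∧ ∀ g, g < f ↔ g = sa

theorem va_y : Va (y : El A k K r M j) := ⟨rfl, fun _ => lt_y⟩
theorem va_v (l : Fin K) (i : Fin r) : Va (v l i : El A k K r M j) := ⟨rfl, fun _ => lt_v⟩
theorem va_c (l : Fin K) (i : Fin r) (m : Fin M) (s : Fin j) :
    Va (c l i m s : El A k K r M j) := ⟨rfl, fun _ => lt_c⟩

theorem Va.not_lt_low {p f : El A k K r M j} (hp : Va p) (hf : low f = true) : ¬ p < f := by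
  intro h
  have h1 : sa < p := (hp.2 sa).2 rfl
  rcases isLow hf with h2 | ⟨s, h2, h3⟩
  · exact h2 p h
  · exact h3 sa ((h2 p).1 h ▸ h1)

theorem keep {m : List (El A k K r M j)} (hn : m.Nodup) {f p q : El A k K r M j}
    (hf : low f = true) (hp : Va p) (h : Bef m p q) (h1 : p ≠ f) (h2 : q ≠ f) :
    Bef (mv m f) p q :=
  bef_mv hn (isLow hf) h h1 h2 (hp.not_lt_low hf)

theorem behind {p : List (El A k K r M j)} (hn : (sta p).Nodup) {f g : El A k K r M j}
    (hf : Va f) (hg : Va g) (hm : g ∈ p) (hne : g ≠ f) : Bef (mv (sta p) f) g f :=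
  bef_mv_self hn (sta_revLin p) (isLow hf.1) (mem_sta.2 ⟨hm, hg.1⟩) hne
    (fun s hs => (hg.2 s).2 ((hf.2 s).1 hs))

theorem first_ne_sa {p : List (El A k K r M j)} {e g : El A k K r M j}
    (hg : Va g) (hm : g ∈ p) (hl : g < e) : ¬ First (sta p) e sa := by
  intro h
  exact h.2.2 g hl (bef_of_lt (sta_revLin p) (mem_sta.2 ⟨hm, hg.1⟩) h.1 ((hg.2 sa).2 rfl))

/-- a competitor that came in an earlier phase protects `v` -/
theorem inv_prot (C : Ctx b s0 i0 u) (l : Fin K) (i : Fin r) (m : Fin M) (s : Fin j)
    (hb : b (c l i m s) < b (v l i)) : ∀ p, p <+: u → v l i ∈ p → w1 l i m ∉ p →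
    Bef (sta p) (c l i m s) (v l i) := by
  refine prefix_ind u _ (by simp) (fun p e h ih hv hw => ?_)
  have hle := C.le h hv
  have hc : c l i m s ∈ p := C.early h (C.mem_c l i m s) (by omega)
  have hw' : w1 l i m ∉ p := fun h' => hw (List.mem_append_left _ h')
  have hvp : v l i ≠ e → v l i ∈ p := fun hne => by simpa [hne] using hv
  rcases sta_step p e (C.pnd h) with ⟨h1, _, h3⟩ | ⟨f, h1, h2, h3⟩
  · rw [h3]
    exact ih (hvp (by rintro rfl; simp [low] at h1)) hw'
  · rw [h3]
    by_cases hf : v l i = f
    · subst hf
      exact behind (C.pnd' h) (va_v l i) (va_c l i m s) hc (by simp)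
    · have hve : v l i ≠ e := by
        rintro rfl
        rcases h2 with h2 | h2
        · exact hf h2.symm
        · simp [low] at h2
      refine keep (C.pnd' h) h1 (va_c l i m s) (ih (hvp hve) hw') ?_ hf
      rintro rfl
      rcases h2 with h2 | h2
      · exact C.new h (h2 ▸ hc)
      · exact hw (by simp [c_lt.1 h2.2.2.1])

def Fired (b : El A k K r M j → ℕ) (p : List (El A k K r M j)) : Prop :=
  ∃ l, w2 l ∈ p ∧ b (w2 l) = 3

theorem Fired.mono {p : List (El A k K r M j)} (h : Fired b p) (e : El A k K r M j) :
    Fired b (p ++ [e]) := by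
  obtain ⟨l, h1, h2⟩ := h
  exact ⟨l, List.mem_append_left _ h1, h2⟩

theorem Ctx.le3 (C : Ctx b s0 i0 u) (G : Good b) {p : List (El A k K r M j)}
    {e : El A k K r M j} (h : p ++ [e] <+: u) (hF : ¬ Fired b p) : b e ≤ 3 := by
  by_contra hlt
  obtain ⟨l, hl⟩ := G.hfire
  exact hF ⟨l, C.early h (C.mem_w2 l) (by omega), hl⟩

/-- before the clock fires, `y` is not touched after phase 0 -/
theorem y_untouched (C : Ctx b s0 i0 u) (G : Good b) {p : List (El A k K r M j)}
    {e : El A k K r M j} (h : p ++ [e] <+: u) (hF : ¬ Fired b (p ++ [e])) (he : 1 ≤ b e) :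
    ¬ y ≤ e := by
  have h3 := C.le3 G h (fun h' => hF (h'.mono e))
  intro hle
  rcases hle.eq_or_lt with rfl | hl
  · have := G.hy; omega
  · rcases y_lt.1 hl with ⟨i, rfl⟩ | ⟨l, rfl⟩
    · have := G.hz i; omega
    · have := G.hw l
      exact hF ⟨l, by simp, by omega⟩

theorem touch_le {m : List (El A k K r M j)} {e f : El A k K r M j}
    (h : f = e ∨ (low e = false ∧ First m e f)) : f ≤ e := by
  rcases h with h | h
  · exact h.le
  · exact h.2.2.1.le

theorem inv_late (C : Ctx b s0 i0 u) (G : Good b) (g : El A k K r M j) (hg : Va g)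
    (hb : 1 ≤ b g) : ∀ p, p <+: u → ¬ Fired b p → g ∈ p → Bef (sta p) y g := by
  refine prefix_ind u _ (by simp) (fun p e h ih hF hm => ?_)
  have hle := C.le h hm
  have hy := G.hy
  have hyp : y ∈ p := C.early h C.mem_y (by omega)
  have hgy : y ≠ g := by rintro rfl; omega
  have hu := y_untouched C G h hF (by omega)
  have hF' : ¬ Fired b p := fun h' => hF (h'.mono e)
  have hgp : g ≠ e → g ∈ p := fun hne => by simpa [hne] using hm
  rcases sta_step p e (C.pnd h) with ⟨h1, _, h3⟩ | ⟨f, h1, h2, h3⟩
  · rw [h3]
    exact ih hF' (hgp (by rintro rfl; simp [hg.1] at h1))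
  · rw [h3]
    by_cases hf : g = f
    · subst hf
      exact behind (C.pnd' h) hg va_y hyp hgy
    · have hge : g ≠ e := by
        rintro rfl
        rcases h2 with h2 | h2
        · exact hf h2.symm
        · simp [hg.1] at h2
      exact keep (C.pnd' h) h1 va_y (ih hF' (hgp hge))
        (by rintro rfl; exact hu (touch_le h2)) hf

theorem inv_kill (C : Ctx b s0 i0 u) (G : Good b) (l : Fin K) (i : Fin r) (m : Fin M)
    (hw : 1 ≤ b (w1 l i m)) (hc : ∀ s, b (c l i m s) ≠ 0) :
    ∀ p, p <+: u → ¬ Fired b p → w1 l i m ∈ p → v l i ∈ p → Bef (sta p) y (v l i) := by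
  refine prefix_ind u _ (by simp) (fun p e h ih hF hm hv => ?_)
  have hle := C.le h hm
  have hy := G.hy
  have hyp : y ∈ p := C.early h C.mem_y (by omega)
  have hu := y_untouched C G h hF (by omega)
  have hF' : ¬ Fired b p := fun h' => hF (h'.mono e)
  have hvp : v l i ≠ e → v l i ∈ p := fun hne => by simpa [hne] using hv
  have hwp : w1 l i m ≠ e → w1 l i m ∈ p := fun hne => by simpa [hne] using hm
  have hpre : p <+: u := (List.prefix_append p [e]).trans h
  rcases sta_step p e (C.pnd h) with ⟨h1, h2, h3⟩ | ⟨f, h1, h2, h3⟩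
  · rw [h3]
    have hv' := hvp (by rintro rfl; simp [low] at h1)
    refine ih hF' (hwp ?_) hv'
    rintro rfl
    exact h2 _ hv' (v_lt.2 (Or.inr ⟨m, rfl⟩))
  · rw [h3]
    by_cases hf : v l i = f
    · subst hf
      exact behind (C.pnd' h) (va_v l i) va_y hyp (by simp)
    · have hve : v l i ≠ e := by
        rintro rfl
        rcases h2 with h2 | h2
        · exact hf h2.symm
        · simp [low] at h2
      have hv' := hvp hve
      refine keep (C.pnd' h) h1 va_y ?_ (by rintro rfl; exact hu (touch_le h2)) hf
      by_cases hwe : w1 l i m = e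
      · subst hwe
        have hlt : v l i < (w1 l i m : El A k K r M j) := v_lt.2 (Or.inr ⟨m, rfl⟩)
        rcases bef_total (sta p) (mem_sta.2 ⟨hyp, rfl⟩) (mem_sta.2 ⟨hv', rfl⟩) (by simp)
          with h4 | h4
        · exact h4
        · exfalso
          rcases h2 with h2 | ⟨_, h2⟩
          · subst h2; simp [low] at h1
          · rcases lt_w1.1 h2.2.1 with rfl | rfl | ⟨s, rfl⟩
            · exact first_ne_sa (va_v l i) hv' hlt h2
            · exact hf rfl
            · have := hc s
              exact h2.2.2 _ hlt (bef_trans (C.pnd' h) h4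
                (inv_late C G _ (va_c l i m s) (by omega) p hpre hF' (mem_sta.1 h2.1).1))
      · exact ih hF' (hwp hwe) hv'

/-- the first refresher of phase 3 touches `y` -/
theorem fire_step (C : Ctx b s0 i0 u) (G : Good b) {p : List (El A k K r M j)}
    {e : El A k K r M j} (h : p ++ [e] <+: u) (hF : ¬ Fired b p) (hF' : Fired b (p ++ [e])) :
    b e = 3 ∧ (∃ l, e = w2 l) ∧ sta (p ++ [e]) = mv (sta p) y := by
  obtain ⟨l, h1, h2⟩ := hF'
  have he : w2 l = e := by
    rcases List.mem_append.1 h1 with h1 | h1
    · exact absurd ⟨l, h1, h2⟩ hF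
    · simpa using h1
  subst he
  refine ⟨h2, ⟨l, rfl⟩, ?_⟩
  have hy := G.hy
  have hyp : y ∈ p := C.early h C.mem_y (by omega)
  have hlt : y < (w2 l : El A k K r M j) := y_lt.2 (Or.inr ⟨l, rfl⟩)
  have hpre : p <+: u := (List.prefix_append p _).trans h
  rcases sta_step p _ (C.pnd h) with ⟨_, h4, _⟩ | ⟨f, h3, h4, h5⟩
  · exact absurd hlt (h4 _ hyp)
  · rcases h4 with h4 | ⟨_, h4⟩
    · subst h4; simp [low] at h3
    · rcases lt_w2.1 h4.2.1 with rfl | rfl | ⟨i, rfl⟩
      · exact absurd h4 (first_ne_sa va_y hyp hlt)
      · exact h5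
      · exfalso
        obtain ⟨m, hm, hc⟩ := G.hkill l i
        exact h4.2.2 _ hlt (inv_kill C G l i m (by omega) hc p hpre hF
          (C.early h (C.mem_w1 l i m) (by omega)) (mem_sta.1 h4.1).1)

theorem inv_frozen (C : Ctx b s0 i0 u) (G : Good b) (l : Fin K) (i : Fin r)
    (hv : b (v l i) = 2) : ∀ p, p <+: u → Fired b p → w2 l ∉ p → Bef (sta p) (v l i) y := by
  refine prefix_ind u _ (by simp [Fired]) (fun p e h ih hF hw => ?_)
  have hw' : w2 l ∉ p := fun h' => hw (List.mem_append_left _ h')
  have hpre : p <+: u := (List.prefix_append p _).trans h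
  by_cases hFp : Fired b p
  · have h0 := ih hFp hw'
    have hvp := (mem_sta.1 (bef_mem h0).1).1
    rcases sta_step p e (C.pnd h) with ⟨_, _, h3⟩ | ⟨f, h1, h2, h3⟩
    · rw [h3]; exact h0
    · rw [h3]
      by_cases hf : y = f
      · subst hf
        exact behind (C.pnd' h) va_y (va_v l i) hvp (by simp)
      · refine keep (C.pnd' h) h1 (va_v l i) h0 ?_ hf
        rintro rfl
        rcases h2 with h2 | ⟨_, h2⟩
        · exact C.new h (h2 ▸ hvp)
        · rcases v_lt.1 h2.2.1 with rfl | ⟨m, rfl⟩
          · exact hw (by simp)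
          · obtain ⟨s, hs⟩ := G.hsafe l i m
            exact h2.2.2 _ (c_lt.2 rfl)
              (inv_prot C l i m s (by omega) p hpre hvp (C.new h))
  · obtain ⟨h1, _, h3⟩ := fire_step C G h hFp hF
    rw [h3]
    exact behind (C.pnd' h) va_y (va_v l i) (C.early h (C.mem_v l i) (by omega)) (by simp)

/-- after the clock has fired no refresher touches `y` -/
theorem not_first_y (C : Ctx b s0 i0 u) (G : Good b) {p : List (El A k K r M j)} {l : Fin K}
    (h : p ++ [w2 l] <+: u) (hF : Fired b p) : ¬ First (sta p) (w2 l) y := by
  intro h1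
  obtain ⟨i, hi⟩ := G.hfro l
  exact h1.2.2 _ (v_lt.2 (Or.inl rfl))
    (inv_frozen C G l i hi p ((List.prefix_append p _).trans h) hF (C.new h))

end Pool.Agent.Lib.MP_ac744f_co
end
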