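import Mathlib

-- part Pool.Agent.Lib.MP_ac744f_co.Prob
section

/-!
Finite product weights, a monotone coupling with uniform orderings, and adjacency counts.
-/

set_option autoImplicit false
set_option linter.unusedSectionVars false

namespace Pool.Agent.Lib.MP_ac744f_co

open Finset
open scoped Classical

variable {E : Type} [Fintype E] {B : Type} [Fintype B]

noncomputable def wt (q : B → ℝ) (β : E → B) : ℝ := ∏ e, q (β e)

noncomputable def Ex (q : B → ℝ) (F : (E → B) → ℝ) : ℝ := ∑ β, wt q β * F β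

noncomputable def ind (p : Prop) : ℝ := if p then 1 else 0

noncomputable def Pr (q : B → ℝ) (G : (E → B) → Prop) : ℝ := Ex q (fun β => ind (G β))

noncomputable def qs (q : B → ℝ) (S : B → Prop) : ℝ := ∑ b, q b * ind (S b)

structure IsW (q : B → ℝ) : Prop where
  nn : ∀ b, 0 ≤ q b
  one : ∑ b, q b = 1

variable {q : B → ℝ}

theorem ind_nn (p : Prop) : 0 ≤ ind p := by unfold ind; split_ifs <;> norm_num

theorem ind_le (p : Prop) : ind p ≤ 1 := by unfold ind; split_ifs <;> norm_num

theorem ind_true {p : Prop} (h : p) : ind p = 1 := by simp [ind, h]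

theorem ind_false {p : Prop} (h : ¬ p) : ind p = 0 := by simp [ind, h]

theorem ind_not (p : Prop) : ind (¬ p) = 1 - ind p := by
  by_cases h : p <;> simp [ind, h]

theorem ind_all {I : Type} [Fintype I] (p : I → Prop) : ind (∀ i, p i) = ∏ i, ind (p i) := by
  by_cases h : ∀ i, p i
  · simp [ind, h]
  · rw [ind_false h]
    push Not at h
    obtain ⟨i, hi⟩ := h
    exact (prod_eq_zero (mem_univ i) (ind_false hi)).symm

theorem wt_nn (hq : IsW q) (β : E → B) : 0 ≤ wt q β := prod_nonneg (fun _ _ => hq.nn _)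

theorem ex_prod_univ (h : E → B → ℝ) :
    Ex q (fun β => ∏ e, h e (β e)) = ∏ e, ∑ b, q b * h e b := by
  rw [prod_univ_sum]
  simp [Ex, wt, prod_mul_distrib]

theorem ex_prod (hq : IsW q) {I : Type} [Fintype I] (ι : I → E) (hι : Function.Injective ι)
    (h : I → B → ℝ) : Ex q (fun β => ∏ i, h i (β (ι i))) = ∏ i, ∑ b, q b * h i b := by
  have h1 := ex_prod_univ (q := q) (Function.extend ι h (fun _ _ => 1))
  rw [Fintype.prod_of_injective ι hι (fun i => ∑ b, q b * h i b)
    (fun e => ∑ b, q b * Function.extend ι h (fun _ _ => 1) e b), ← h1]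
  · unfold Ex
    refine sum_congr rfl (fun β _ => ?_)
    congr 1
    refine Fintype.prod_of_injective ι hι _ _ (fun e he => ?_) (fun i => ?_)
    · rw [Function.extend_apply' _ _ _ (by simpa using he)]
    · rw [hι.extend_apply]
  · intro e he
    rw [Function.extend_apply' _ _ _ (by simpa using he)]
    simpa using hq.one
  · intro i
    rw [hι.extend_apply]

theorem ex_mono (hq : IsW q) {F G : (E → B) → ℝ} (h : ∀ β, F β ≤ G β) : Ex q F ≤ Ex q G :=
  sum_le_sum (fun β _ => mul_le_mul_of_nonneg_left (h β) (wt_nn hq β))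

theorem ex_one (hq : IsW q) : Ex q (fun _ : E → B => 1) = 1 := by
  have := ex_prod_univ (E := E) (q := q) (fun _ _ => 1)
  simpa [hq.one] using this

theorem ex_sum {I : Type} (s : Finset I) (F : I → (E → B) → ℝ) :
    Ex q (fun β => ∑ i ∈ s, F i β) = ∑ i ∈ s, Ex q (F i) := by
  unfold Ex
  rw [sum_comm]
  simp [mul_sum]

theorem ex_mul (a : ℝ) (F : (E → B) → ℝ) : Ex q (fun β => a * F β) = a * Ex q F := by
  unfold Ex
  rw [mul_sum]
  exact sum_congr rfl (fun β _ => by ring)

theorem ex_add (F G : (E → B) → ℝ) : Ex q (fun β => F β + G β) = Ex q F + Ex q G := by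
  unfold Ex
  rw [← sum_add_distrib]
  exact sum_congr rfl (fun β _ => by ring)

theorem pr_mono (hq : IsW q) {G H : (E → B) → Prop} (h : ∀ β, G β → H β) : Pr q G ≤ Pr q H :=
  ex_mono hq (fun β => by
    by_cases hg : G β
    · rw [ind_true hg, ind_true (h β hg)]
    · rw [ind_false hg]; exact ind_nn _)

theorem pr_or (hq : IsW q) (G H : (E → B) → Prop) :
    Pr q (fun β => G β ∨ H β) ≤ Pr q G + Pr q H := by
  unfold Pr
  rw [← ex_add]
  refine ex_mono hq (fun β => ?_)
  have h1 := ind_nn (G β)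
  have h2 := ind_nn (H β)
  by_cases h : G β ∨ H β
  · rw [ind_true h]
    rcases h with h | h <;> rw [ind_true h] <;> linarith
  · rw [ind_false h]; linarith

theorem pr_true (hq : IsW q) : Pr q (fun _ : E → B => True) = 1 := by
  unfold Pr
  simp only [ind_true trivial]
  exact ex_one hq

theorem pr_exists (hq : IsW q) {I : Type} [Fintype I] (G : I → (E → B) → Prop) (a : ℝ)
    (h : ∀ i, Pr q (G i) ≤ a) : Pr q (fun β => ∃ i, G i β) ≤ Fintype.card I * a := by
  have h1 : Pr q (fun β => ∃ i, G i β) ≤ ∑ i, Pr q (G i) := by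
    unfold Pr
    rw [← ex_sum]
    refine ex_mono hq (fun β => ?_)
    by_cases hg : ∃ i, G i β
    · rw [ind_true hg]
      obtain ⟨i, hi⟩ := hg
      rw [← ind_true hi]
      exact single_le_sum (f := fun i => ind (G i β)) (fun i _ => ind_nn _) (mem_univ i)
    · rw [ind_false hg]
      exact sum_nonneg (fun i _ => ind_nn _)
  refine h1.trans ((sum_le_sum (fun i _ => h i)).trans ?_)
  simp

theorem pr_all (hq : IsW q) {I : Type} [Fintype I] (ι : I → E) (hι : Function.Injective ι)
    (S : I → B → Prop) : Pr q (fun β => ∀ i, S i (β (ι i))) = ∏ i, qs q (S i) := by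
  unfold Pr
  simp only [ind_all]
  exact ex_prod hq ι hι (fun i b => ind (S i b))

theorem pr_one (hq : IsW q) (e : E) (S : B → Prop) : Pr q (fun β => S (β e)) = qs q S := by
  have := pr_all hq (fun _ : Unit => e) (fun _ _ _ => rfl) (fun _ => S)
  simpa using this

theorem pr_blocks (hq : IsW q) {J T : Type} [Fintype J] [Fintype T] (ι : J × T → E)
    (hι : Function.Injective ι) (S : T → B → Prop) :
    Pr q (fun β => ∀ m, ¬ ∀ t, S t (β (ι (m, t)))) = (1 - ∏ t, qs q (S t)) ^ Fintype.card J := by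
  have h1 : ∀ β : E → B, ind (∀ m, ¬ ∀ t, S t (β (ι (m, t)))) =
      ∑ s ∈ (univ : Finset J).powerset,
        (-1) ^ s.card * ind (∀ i : s × T, S i.2 (β (ι (i.1, i.2)))) := by
    intro β
    rw [ind_all]
    simp only [ind_not, sub_eq_add_neg]
    rw [prod_one_add]
    refine sum_congr rfl (fun s _ => ?_)
    rw [prod_neg, ind_all, Fintype.prod_prod_type, ← prod_coe_sort s]
    congr 1
    exact prod_congr rfl (fun m _ => ind_all _)
  unfold Pr
  simp only [h1]
  rw [ex_sum, ← card_univ, ← prod_const, sub_eq_add_neg, prod_one_add]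
  refine sum_congr rfl (fun s _ => ?_)
  rw [ex_mul, prod_neg]
  congr 1
  have := pr_all hq (fun i : s × T => ι (i.1, i.2)) (fun i i' h => by
    have := hι h
    simp only [Prod.mk.injEq] at this
    exact Prod.ext (Subtype.ext this.1) this.2) (fun i => S i.2)
  unfold Pr at this
  rw [this, Fintype.prod_prod_type]
  simp

theorem qs_not (hq : IsW q) (S : B → Prop) : qs q (fun b => ¬ S b) = 1 - qs q S := by
  unfold qs
  rw [← hq.one, ← sum_sub_distrib]
  exact sum_congr rfl (fun b _ => by rw [ind_not]; ring)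

theorem pr_count (hq : IsW q) {I : Type} [Fintype I] (ι : I → E) (hι : Function.Injective ι)
    (S : B → Prop) (n : ℕ) :
    Pr q (fun β => (univ.filter (fun i => S (β (ι i)))).card = n) =
      (Fintype.card I).choose n * (qs q S ^ n * (1 - qs q S) ^ (Fintype.card I - n)) := by
  have h1 : ∀ β : E → B, ind ((univ.filter (fun i => S (β (ι i)))).card = n) =
      ∑ s ∈ (univ : Finset I).powersetCard n,
        ind (∀ i, if i ∈ s then S (β (ι i)) else ¬ S (β (ι i))) := by
    intro β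
    have h2 : ∀ s : Finset I, (∀ i, if i ∈ s then S (β (ι i)) else ¬ S (β (ι i))) ↔
        univ.filter (fun i => S (β (ι i))) = s := by
      intro s
      rw [Finset.ext_iff]
      refine forall_congr' (fun i => ?_)
      by_cases hi : i ∈ s <;> simp [hi]
    simp only [h2, ind]
    rw [sum_ite_eq]
    simp
  unfold Pr
  simp only [h1]
  rw [ex_sum, sum_congr rfl (g := fun _ => qs q S ^ n * (1 - qs q S) ^ (Fintype.card I - n))]
  · simp
  · intro s hs
    have hs' := (mem_powersetCard.1 hs).2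
    have := pr_all hq ι hι (fun i b => if i ∈ s then S b else ¬ S b)
    unfold Pr at this
    rw [this, prod_congr rfl (g := fun i => if i ∈ s then qs q S else 1 - qs q S)]
    · rw [prod_ite, prod_const, prod_const, ← hs']
      congr 2
      · congr 1; ext i; simp
      · rw [← card_compl]; congr 1; ext i; simp
    · intro i _
      by_cases hi : i ∈ s
      · simp [hi]
      · simp only [hi, if_false]
        exact qs_not hq S

theorem pr_tail (hq : IsW q) {I : Type} [Fintype I] (ι : I → E) (hι : Function.Injective ι)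
    (S : B → Prop) (n : ℕ) (t : ℝ) (ht : 0 ≤ t) :
    (1 + t) ^ n * Pr q (fun β => n ≤ (univ.filter (fun i => S (β (ι i)))).card) ≤
      (1 + t * qs q S) ^ Fintype.card I := by
  have h1 := ex_prod hq ι hι (fun _ b => 1 + t * ind (S b))
  have h2 : ∑ b, q b * (1 + t * ind (S b)) = 1 + t * qs q S := by
    unfold qs
    rw [mul_sum]
    conv_rhs => rw [← hq.one]
    rw [← sum_add_distrib]
    exact sum_congr rfl (fun b _ => by ring)
  simp only [h2, prod_const, card_univ] at h1
  rw [← h1, Pr, ← ex_mul]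
  refine ex_mono hq (fun β => ?_)
  have h3 : ∏ i, (1 + t * ind (S (β (ι i)))) =
      (1 + t) ^ (univ.filter (fun i => S (β (ι i)))).card := by
    rw [← prod_const, prod_filter]
    exact prod_congr rfl (fun i _ => by by_cases h : S (β (ι i)) <;> simp [ind, h])
  rw [h3]
  by_cases h : n ≤ (univ.filter (fun i => S (β (ι i)))).card
  · rw [ind_true h, mul_one]
    exact pow_le_pow_right₀ (by linarith) h
  · rw [ind_false h, mul_zero]
    positivity

/-- Sorting independent phases and breaking ties uniformly gives a uniform ordering. -/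
theorem coupling [LinearOrder B] (hq : IsW q) (p : E → Prop) (N : ℕ)
    (hN : Fintype.card {e // p e} = N) (G : (E → B) → Prop) (S : (Fin N ≃ {e // p e}) → Prop)
    (h : ∀ (o : Fin N ≃ {e // p e}) (β : E → B), Monotone (fun i => β (o i)) → G β → S o) :
    Pr q G * N.factorial ≤ (univ.filter S).card := by
  let Mo : (Fin N ≃ {e // p e}) → (E → B) → Prop := fun o β => Monotone (fun i => β (o i))
  let c : (E → B) → ℝ := fun β => ∑ o, ind (Mo o β)
  obtain ⟨o0⟩ : Nonempty (Fin N ≃ {e // p e}) := ⟨(Fintype.equivFinOfCardEq hN).symm⟩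
  have hc : ∀ β, 0 < c β := by
    intro β
    have h1 : Mo ((Tuple.sort (fun i => β (o0 i))).trans o0) β :=
      Tuple.monotone_sort (fun i => β (o0 i))
    refine lt_of_lt_of_le ?_ (single_le_sum (f := fun o => ind (Mo o β))
      (fun o _ => ind_nn _) (mem_univ ((Tuple.sort (fun i => β (o0 i))).trans o0)))
    rw [ind_true h1]
    norm_num
  let W : (Fin N ≃ {e // p e}) → ℝ := fun o => Ex q (fun β => ind (Mo o β) / c β)
  have hW : ∀ o, W o = W o0 := by
    intro o
    let σ : Equiv.Perm {e // p e} := o.symm.trans o0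
    let τ : Equiv.Perm E := Equiv.Perm.ofSubtype σ
    have hτ : ∀ e : {e // p e}, τ e = σ e := fun e => Equiv.Perm.ofSubtype_apply_coe σ e
    have hM : ∀ o' β, Mo o' (β ∘ τ) ↔ Mo (o'.trans σ) β := by
      intro o' β
      simp only [Mo, Function.comp, hτ, Equiv.trans_apply]
    have hcτ : ∀ β, c (β ∘ τ) = c β := by
      intro β
      simp only [c, hM]
      exact Equiv.sum_comp (Equiv.equivCongr (Equiv.refl _) σ) (fun o => ind (Mo o β))
    have hoσ : o.trans σ = o0 := by
      ext i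
      simp [σ]
    simp only [W, Ex]
    rw [← Equiv.sum_comp (Equiv.arrowCongr τ.symm (Equiv.refl B))]
    refine sum_congr rfl (fun β _ => ?_)
    have h2 : (Equiv.arrowCongr τ.symm (Equiv.refl B)) β = β ∘ τ := by
      ext e; simp
    rw [h2, hcτ, hM, hoσ]
    congr 1
    exact Equiv.prod_comp τ (fun e => q (β e))
  have hsum : ∑ o, W o = 1 := by
    simp only [W]
    rw [← ex_sum, ← ex_one (E := E) hq]
    congr 1
    ext β
    rw [← sum_div]
    exact div_self (hc β).ne'
  have hcard : Fintype.card (Fin N ≃ {e // p e}) = N.factorial := by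
    rw [Fintype.card_equiv o0]; simp
  have hW0 : W o0 * N.factorial = 1 := by
    simp only [hW, sum_const, card_univ, hcard, nsmul_eq_mul] at hsum
    linarith
  have h3 : Pr q G ≤ ∑ o, ind (S o) * W o := by
    simp only [W, ← ex_mul]
    rw [← ex_sum]
    refine ex_mono hq (fun β => ?_)
    by_cases hg : G β
    · rw [ind_true hg, ← div_self (hc β).ne']
      simp only [c]
      rw [sum_div]
      refine sum_le_sum (fun o _ => ?_)
      by_cases hm : Mo o β
      · rw [ind_true (h o β hm hg), one_mul]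
      · rw [ind_false hm]; simp
    · rw [ind_false hg]
      exact sum_nonneg (fun o _ => mul_nonneg (ind_nn _) (div_nonneg (ind_nn _) (hc β).le))
  simp only [hW] at h3
  rw [← sum_mul] at h3
  have h4 : ∑ o, ind (S o) = ((univ.filter S).card : ℝ) := by
    simp [ind]
  rw [h4] at h3
  calc Pr q G * N.factorial ≤ ((univ.filter S).card * W o0) * N.factorial := by gcongr
    _ = (univ.filter S).card := by rw [mul_assoc, hW0, mul_one]

/-- `g'` comes immediately after `g` -/
def Adj {F : Type} {N : ℕ} (o : Fin N ≃ F) (g g' : F) : Prop :=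
  ((o.symm g' : Fin N) : ℕ) = (o.symm g : Fin N) + 1

theorem adj_count {F : Type} [Fintype F] {N : ℕ} (hN : Fintype.card F = N) (g g' : F) :
    ((N : ℝ) - 1) * (univ.filter (fun o : Fin N ≃ F => Adj o g g')).card ≤ N.factorial := by
  by_cases hg : g' = g
  · subst hg
    have : univ.filter (fun o : Fin N ≃ F => Adj o g' g') = ∅ := by
      ext o; simp [Adj]
    rw [this]
    simp
  have h1 : ∀ f ∈ univ.erase g, (univ.filter (fun o : Fin N ≃ F => Adj o g f)).card =
      (univ.filter (fun o : Fin N ≃ F => Adj o g g')).card := by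
    intro f hf
    have hf' : f ≠ g := ne_of_mem_erase hf
    refine card_equiv (Equiv.equivCongr (Equiv.refl _) (Equiv.swap f g')) (fun o => ?_)
    simp [Adj, Equiv.equivCongr, Equiv.swap_apply_of_ne_of_ne hf'.symm (Ne.symm hg)]
  have h2 : ∑ f ∈ univ.erase g, (univ.filter (fun o : Fin N ≃ F => Adj o g f)).card ≤
      N.factorial := by
    rw [← card_biUnion]
    · refine (card_le_univ _).trans ?_
      rw [Fintype.card_equiv (Fintype.equivFinOfCardEq hN).symm]
      simp
    · intro f _ f' _ hne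
      rw [Function.onFun, disjoint_filter]
      intro o _ h3 h4
      unfold Adj at h3 h4
      exact hne (o.symm.injective (Fin.ext (h3.trans h4.symm)))
  rw [sum_congr rfl h1, sum_const, card_erase_of_mem (mem_univ g), card_univ, hN,
    smul_eq_mul] at h2
  have hpos : 1 ≤ N := by
    rw [← hN]
    exact Fintype.card_pos_iff.2 ⟨g⟩
  have h3 : (((N - 1 : ℕ) : ℝ)) = (N : ℝ) - 1 := by
    rw [Nat.cast_sub hpos]; simp
  rw [← h3]
  exact_mod_cast h2

theorem ncard_eq_filter {α : Type} [Fintype α] (S : α → Prop) :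
    {o | S o}.ncard = (univ.filter S).card := by
  rw [← Set.ncard_coe_finset]
  congr 1
  ext o
  simp

theorem coupling' [LinearOrder B] (hq : IsW q) (p : E → Prop) (N : ℕ)
    (hN : Nat.card {e // p e} = N) (G : (E → B) → Prop) (S : (Fin N ≃ {e // p e}) → Prop)
    (h : ∀ (o : Fin N ≃ {e // p e}) (β : E → B), Monotone (fun i => β (o i)) → G β → S o) :
    Pr q G * N.factorial ≤ {o | S o}.ncard := by
  rw [ncard_eq_filter]
  exact coupling hq p N (by rw [← hN, Nat.card_eq_fintype_card]) G S h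

theorem adj_count' {F : Type} [Finite F] {N : ℕ} (hN : Nat.card F = N) (g g' : F) :
    ((N : ℝ) - 1) * {o : Fin N ≃ F | Adj o g g'}.ncard ≤ N.factorial := by
  have := Fintype.ofFinite F
  rw [ncard_eq_filter]
  exact adj_count (by rw [← hN, Nat.card_eq_fintype_card]) g g'

theorem pr_count' (hq : IsW q) {I : Type} [Fintype I] (ι : I → E) (hι : Function.Injective ι)
    (S : B → Prop) (n : ℕ) :
    Pr q (fun β => {i | S (β (ι i))}.ncard = n) =
      (Fintype.card I).choose n * (qs q S ^ n * (1 - qs q S) ^ (Fintype.card I - n)) := by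
  simp only [ncard_eq_filter]
  exact pr_count hq ι hι S n

theorem pr_tail' (hq : IsW q) {I : Type} [Fintype I] (ι : I → E) (hι : Function.Injective ι)
    (S : B → Prop) (n : ℕ) (t : ℝ) (ht : 0 ≤ t) :
    (1 + t) ^ n * Pr q (fun β => n ≤ {i | S (β (ι i))}.ncard) ≤
      (1 + t * qs q S) ^ Fintype.card I := by
  simp only [ncard_eq_filter]
  exact pr_tail hq ι hι S n t ht

end Pool.Agent.Lib.MP_ac744f_co
end

-- part Pool.Agent.Lib.MP_ac744f_co.Num
section

/-!
Numerical estimates and the choice of parameters.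
-/

set_option autoImplicit false

namespace Pool.Agent.Lib.MP_ac744f_co

theorem exp_le_num (m : ℕ) : Real.exp m ≤ (2.7182818286 : ℝ) ^ m := by
  rw [← Real.exp_one_pow]
  exact pow_le_pow_left₀ (Real.exp_pos _).le Real.exp_one_lt_d9.le m

theorem binom_gap (n : ℕ) (hn : 10000000 ≤ n) (q : ℝ) (hq : q = 36 / n) :
    0.0067 ≤ (n.choose 31 : ℝ) * (q ^ 31 * (1 - q) ^ (n - 31)) -
      (n.choose 30 : ℝ) * (q ^ 30 * (1 - q) ^ (n - 30)) := by
  have hn' : (10000000 : ℝ) ≤ n := by exact_mod_cast hn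
  have hnq : n * q = 36 := by rw [hq]; field_simp
  have hq0 : 0 < q := by rw [hq]; positivity
  have hq1 : q ≤ 0.0000036 := by
    rw [hq, div_le_iff₀ (by linarith)]
    linarith
  have h1q : 0 < 1 - q := by linarith
  obtain ⟨m, hm⟩ : ∃ m, n = m + 31 := ⟨n - 31, by omega⟩
  have e1 : n - 31 = m := by omega
  have e2 : n - 30 = m + 1 := by omega
  have e3 : n + 1 - 30 = m + 2 := by omega
  have hc : (n.choose 31 : ℝ) * 31 = n.choose 30 * (m + 1) := by
    have := Nat.choose_succ_right_eq n 30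
    rw [e2] at this
    exact_mod_cast this
  have hmn : (n : ℝ) = m + 31 := by rw [hm]; push_cast; ring
  have hlow : (0.042 : ℝ) ≤ (n.choose 30 : ℝ) * (q ^ 30 * (1 - q) ^ (m + 1)) := by
    have h1 : ((m + 2 : ℝ)) ^ 30 / (Nat.factorial 30 : ℝ) ≤ n.choose 30 := by
      have := Nat.pow_le_choose (α := ℝ) 30 n
      rw [e3] at this
      exact_mod_cast this
    have h2 : (1 - q) ^ n ≤ (1 - q) ^ (m + 1) :=
      pow_le_pow_of_le_one h1q.le (by linarith) (by omega)
    have h3 : Real.exp (-(q / (1 - q))) ≤ 1 - q := by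
      rw [Real.exp_neg, inv_le_comm₀ (Real.exp_pos _) h1q]
      refine le_trans (le_of_eq ?_) (Real.add_one_le_exp _)
      field_simp
      ring
    have h4 : Real.exp (-(36.002 : ℝ)) ≤ (1 - q) ^ n := by
      refine le_trans ?_ (pow_le_pow_left₀ (Real.exp_pos _).le h3 n)
      rw [← Real.exp_nat_mul, Real.exp_le_exp, mul_neg, neg_le_neg_iff, ← mul_div_assoc, hnq,
        div_le_iff₀ h1q]
      linarith
    have h5 : (0.998 : ℝ) / 2.7182818286 ^ 36 ≤ Real.exp (-(36.002 : ℝ)) := by
      have h6 : Real.exp (-(36.002 : ℝ)) = Real.exp (-(0.002 : ℝ)) / Real.exp (36 : ℕ) := by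
        rw [← Real.exp_sub]; norm_num
      rw [h6]
      refine div_le_div₀ (Real.exp_pos _).le ?_ (Real.exp_pos _) (exp_le_num 36)
      have := Real.add_one_le_exp (-(0.002 : ℝ))
      linarith
    have h7 : (35.998 : ℝ) ^ 30 ≤ ((m + 2 : ℝ) * q) ^ 30 := by
      refine pow_le_pow_left₀ (by norm_num) ?_ 30
      have : (m + 2 : ℝ) * q = n * q - 29 * q := by rw [hmn]; ring
      rw [this, hnq]
      linarith
    have h8 : (0.998 : ℝ) / 2.7182818286 ^ 36 ≤ (1 - q) ^ (m + 1) := h5.trans (h4.trans h2)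
    calc (0.042 : ℝ) ≤ (35.998 : ℝ) ^ 30 / (Nat.factorial 30 : ℝ) * (0.998 / 2.7182818286 ^ 36) := by
          norm_num [Nat.factorial]
      _ ≤ ((m + 2 : ℝ) * q) ^ 30 / (Nat.factorial 30 : ℝ) * (1 - q) ^ (m + 1) := by gcongr
      _ = ((m + 2 : ℝ)) ^ 30 / (Nat.factorial 30 : ℝ) * (q ^ 30 * (1 - q) ^ (m + 1)) := by
          rw [mul_pow]; ring
      _ ≤ _ := by gcongr
  rw [e1, e2]
  have h9 : (n.choose 31 : ℝ) = n.choose 30 * (m + 1) / 31 := by rw [← hc]; ring
  have h10 : (1.16 : ℝ) * (1 - q) ≤ (m + 1) * q / 31 := by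
    have : (m + 1 : ℝ) * q = n * q - 30 * q := by rw [hmn]; ring
    rw [this, hnq]
    linarith
  have h11 : (1.16 : ℝ) * ((n.choose 30 : ℝ) * (q ^ 30 * (1 - q) ^ (m + 1))) ≤
      (n.choose 31 : ℝ) * (q ^ 31 * (1 - q) ^ m) := by
    calc (1.16 : ℝ) * ((n.choose 30 : ℝ) * (q ^ 30 * (1 - q) ^ (m + 1)))
        = ((n.choose 30 : ℝ) * (q ^ 30 * (1 - q) ^ m)) * (1.16 * (1 - q)) := by ring
      _ ≤ ((n.choose 30 : ℝ) * (q ^ 30 * (1 - q) ^ m)) * ((m + 1) * q / 31) := by gcongr
      _ = _ := by rw [h9]; ring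
  linarith

theorem binom_tail (n : ℕ) (hn : 1 ≤ n) (q : ℝ) (hq : q = 36 / n) (T : ℝ)
    (h : (1 + 25 / 36) ^ 61 * T ≤ (1 + 25 / 36 * q) ^ n) : T ≤ 0.001 := by
  have hn' : (1 : ℝ) ≤ n := by exact_mod_cast hn
  have hq0 : 0 < q := by rw [hq]; positivity
  have h1 : (1 + 25 / 36 * q) ^ n ≤ Real.exp (25 : ℕ) := by
    have h2 : 1 + 25 / 36 * q ≤ Real.exp (25 / 36 * q) := by
      have := Real.add_one_le_exp (25 / 36 * q)
      linarith
    refine (pow_le_pow_left₀ (by positivity) h2 n).trans (le_of_eq ?_)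
    rw [← Real.exp_nat_mul, hq]
    congr 1
    field_simp
    norm_num
  have h3 := h.trans (h1.trans (exp_le_num 25))
  have h4 : (2.7182818286 : ℝ) ^ 25 ≤ (1 + 25 / 36) ^ 61 * 0.001 := by norm_num
  exact le_of_mul_le_mul_left (h3.trans h4) (by positivity)

theorem choose_jM (D δ a ρ : ℝ) (hD : 0 ≤ D) (hδ : 0 < δ) (ha : 0 < a) (haρ : a < ρ)
    (hρ : ρ ≤ 1) : ∃ j M : ℕ, D * (1 - a * ρ ^ j) ^ M ≤ δ ∧ D * (M * (ρ - a) ^ j) ≤ δ := by
  have hρ0 : 0 < ρ := ha.trans haρ
  set C := (D + 1) / δ with hC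
  have hC0 : 0 < C := by positivity
  obtain ⟨j, hj⟩ := exists_pow_lt_of_lt_one (x := δ / (D * (C / a + 1) + 1)) (y := (ρ - a) / ρ)
    (by positivity) (by rw [div_lt_one hρ0]; linarith)
  have hρj : 0 < ρ ^ j := by positivity
  have hρj1 : ρ ^ j ≤ 1 := pow_le_one₀ hρ0.le hρ
  refine ⟨j, ⌈C / (a * ρ ^ j)⌉₊, ?_, ?_⟩
  · set M := ⌈C / (a * ρ ^ j)⌉₊
    have hp : 0 < a * ρ ^ j := by positivity
    have hM : C ≤ M * (a * ρ ^ j) := by
      rw [← div_le_iff₀ hp]
      exact Nat.le_ceil _
    have hp1 : a * ρ ^ j ≤ 1 := by nlinarith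
    have h1 : (1 - a * ρ ^ j) ^ M ≤ Real.exp (-C) := by
      have h2 : 1 - a * ρ ^ j ≤ Real.exp (-(a * ρ ^ j)) := by
        have := Real.add_one_le_exp (-(a * ρ ^ j))
        linarith
      refine (pow_le_pow_left₀ (by linarith) h2 M).trans ?_
      rw [← Real.exp_nat_mul, Real.exp_le_exp]
      linarith
    have h3 : Real.exp (-C) ≤ C⁻¹ := by
      rw [Real.exp_neg]
      refine inv_anti₀ hC0 ?_
      have := Real.add_one_le_exp C
      linarith
    calc D * (1 - a * ρ ^ j) ^ M ≤ (D + 1) * C⁻¹ := by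
          have := h1.trans h3
          gcongr
          linarith
      _ = δ := by rw [hC]; field_simp
  · have hM : (⌈C / (a * ρ ^ j)⌉₊ : ℝ) ≤ (C / a + 1) / ρ ^ j := by
      refine (Nat.ceil_lt_add_one (by positivity)).le.trans ?_
      rw [add_div (C / a), div_div C]
      exact add_le_add le_rfl (by rw [le_div_iff₀ hρj]; linarith)
    have hra : 0 ≤ ρ - a := by linarith
    rw [lt_div_iff₀ (by positivity), div_pow] at hj
    calc D * ((⌈C / (a * ρ ^ j)⌉₊ : ℝ) * (ρ - a) ^ j)
        ≤ D * ((C / a + 1) / ρ ^ j * (ρ - a) ^ j) := by gcongr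
      _ = (ρ - a) ^ j / ρ ^ j * (D * (C / a + 1)) := by ring
      _ ≤ (ρ - a) ^ j / ρ ^ j * (D * (C / a + 1) + 1) := by gcongr; linarith
      _ ≤ δ := hj.le

theorem choose_params (k : ℕ) (hk : 1 ≤ k) (δ q4 : ℝ) (hδ : 0 < δ) (hδ1 : δ ≤ 1 / 2)
    (h4 : 0 < q4) (h4' : q4 ≤ 1 / 2) : ∃ (a q3 : ℝ) (K r j M : ℕ), 0 < a ∧ 0 < q3 ∧
      k * (a + a + q3) ≤ δ ∧ K * (a + a) ≤ δ ∧ (1 - q3) ^ K ≤ δ ∧ K * (1 - a) ^ r ≤ δ ∧
      (K * r : ℝ) * (1 - a * (a + a + q3 + q4) ^ j) ^ M ≤ δ ∧
      (K * r : ℝ) * (M * (a + q3 + q4) ^ j) ≤ δ ∧ (k : ℝ) ^ 2 ≤ δ * K := by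
  have hk' : (1 : ℝ) ≤ k := by exact_mod_cast hk
  set q3 := δ / (3 * k) with hq3
  have h3 : 0 < q3 := by positivity
  have h3k : k * q3 = δ / 3 := by rw [hq3]; field_simp
  have h31 : q3 ≤ δ / 3 := by nlinarith
  obtain ⟨K0, hK0⟩ := exists_pow_lt_of_lt_one (x := δ) (y := 1 - q3) hδ (by linarith)
  set K := max K0 ⌈(k : ℝ) ^ 2 / δ⌉₊ with hK
  set a := min q3 (δ / (2 * K + 1)) with ha
  have ha0 : 0 < a := lt_min h3 (by positivity)
  have ha3 : a ≤ q3 := min_le_left _ _
  have haK : a * (2 * K + 1) ≤ δ := by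
    rw [← le_div_iff₀ (by positivity)]
    exact min_le_right _ _
  obtain ⟨r, hr⟩ := exists_pow_lt_of_lt_one (x := δ / (K + 1)) (y := 1 - a) (by positivity)
    (by linarith)
  obtain ⟨j, M, h5, h6⟩ := choose_jM (K * r) δ a (a + a + q3 + q4) (by positivity) hδ ha0
    (by linarith) (by linarith)
  refine ⟨a, q3, K, r, j, M, ha0, h3, by nlinarith, by nlinarith, ?_, ?_, h5, ?_, ?_⟩
  · exact (pow_le_pow_of_le_one (by linarith) (by linarith) (le_max_left _ _)).trans hK0.le
  · rw [lt_div_iff₀ (by positivity)] at hr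
    have : 0 ≤ (1 - a) ^ r := pow_nonneg (by linarith) r
    nlinarith
  · convert h6 using 3
    ring
  · have h7 : (⌈(k : ℝ) ^ 2 / δ⌉₊ : ℝ) ≤ K := Nat.cast_le.2 (le_max_right _ _)
    have h8 := (Nat.le_ceil ((k : ℝ) ^ 2 / δ)).trans h7
    rw [div_le_iff₀ hδ] at h8
    linarith

end Pool.Agent.Lib.MP_ac744f_co
end
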