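import Pool.Agent.Lib.MP_ac744f_co.Dyn
import Pool.Agent.Lib.MP_ac744f_co.Num

-- part Pool.Agent.Lib.MP_ac744f_co.Queue
section

/-!
The queue seen by the tops `z`, in the two systems (`sa` removed, `sb` removed).
-/

set_option autoImplicit false
set_option linter.unusedSectionVars false

namespace Pool.Agent.Lib.MP_ac744f_co

open El

variable {A k K r M j : ℕ}
variable {b : El A k K r M j → ℕ} {s0 : El A k K r M j} {i0 : Fin k}
  {u : List (El A k K r M j)}

def isZ : El A k K r M j → Bool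
  | z _ => true
  | _ => false

/-- number of queue tops of phase 4 -/
def n4 (b : El A k K r M j → ℕ) (p : List (El A k K r M j)) : ℕ :=
  p.countP (fun e => isZ e && decide (b e = 4))

def NoAdj (u : List (El A k K r M j)) : Prop := ∀ p i i', ¬ (p ++ [z i] ++ [z i'] <+: u)

theorem n4_snoc (p : List (El A k K r M j)) (e : El A k K r M j) :
    n4 b (p ++ [e]) = n4 b p + if isZ e = true ∧ b e = 4 then 1 else 0 := by
  simp [n4, List.countP_append, List.countP_cons]

theorem psi_nodup {p : List (El A k K r M j)} (hn : (sta p).Nodup) : (psi p).Nodup := hn.filter _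

theorem mem_psi {p : List (El A k K r M j)} {g : El A k K r M j} :
    g ∈ psi p ↔ g ∈ p ∧ qu g = true := by
  simp only [psi, List.mem_filter, mem_sta]
  cases g <;> simp [low, qu]

theorem psi_revLin (p : List (El A k K r M j)) : RevLin (psi p) :=
  List.Pairwise.sublist List.filter_sublist (sta_revLin p)

theorem vstep (C : Ctx b s0 i0 u) (G : Good b) {p : List (El A k K r M j)}
    {e : El A k K r M j} (h : p ++ [e] <+: u) (he : 1 ≤ b e) (hz : isZ e = false) :
    (sa ∉ p ∧ sta (p ++ [e]) = sta p) ∨ ∃ f, (f = sa ∨ Va f) ∧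
      (f = y → ∃ l, e = w2 l ∧ First (sta p) e y) ∧ (qu f = true → f = sa ∨ f = y) ∧
      sta (p ++ [e]) = mv (sta p) f := by
  have h1 := G.hsa
  have h2 := G.hsb
  have h3 := G.hy
  rcases sta_step p e (C.pnd h) with ⟨h4, h5, h6⟩ | ⟨f, h4, h5, h6⟩
  · refine Or.inl ⟨fun hs => h5 _ hs ?_, h6⟩
    rw [lt_iff]
    cases e <;> simp_all [low, ltb]
  · refine Or.inr ⟨f, ?_⟩
    rcases h5 with rfl | ⟨h5, h7⟩
    · cases f with
      | sa => omega
      | sb => omega
      | x i => have := G.hx i; omega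
      | y => omega
      | z i => simp [low] at h4
      | w2 l => simp [low] at h4
      | w1 l i m => simp [low] at h4
      | v l i => exact ⟨Or.inr (va_v l i), by simp, by simp [qu], h6⟩
      | c l i m s => exact ⟨Or.inr (va_c l i m s), by simp, by simp [qu], h6⟩
    · cases e with
      | w2 l =>
        rcases lt_w2.1 h7.2.1 with rfl | rfl | ⟨i, rfl⟩
        · exact ⟨Or.inl rfl, by simp, by simp, h6⟩
        · exact ⟨Or.inr va_y, fun _ => ⟨l, rfl, h7⟩, by simp, h6⟩
        · exact ⟨Or.inr (va_v l i), by simp, by simp [qu], h6⟩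
      | w1 l i m =>
        rcases lt_w1.1 h7.2.1 with rfl | rfl | ⟨s, rfl⟩
        · exact ⟨Or.inl rfl, by simp, by simp, h6⟩
        · exact ⟨Or.inr (va_v l i), by simp, by simp [qu], h6⟩
        · exact ⟨Or.inr (va_c l i m s), by simp, by simp [qu], h6⟩
      | z i => simp [isZ] at hz
      | _ => simp [low] at h5

theorem last_sa (C : Ctx b sb i0 u) (G : Good b) {p : List (El A k K r M j)}
    {e : El A k K r M j} (h : p ++ [e] <+: u) (he : 1 ≤ b e) (hz : isZ e = false) :
    ∃ R, psi (p ++ [e]) = R ++ [sa] := by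
  have h1 := G.hsa
  have hs : sa ∈ p := C.early h (by rw [C.mem]; simp) (by omega)
  rcases vstep C G h he hz with ⟨h2, _⟩ | ⟨f, h2, _, _, h5⟩
  · exact absurd hs h2
  · have hl : low f = true := by
      rcases h2 with rfl | h2
      · rfl
      · exact h2.1
    rw [psi, h5]
    rcases mv_form (C.pnd' h) (isLow hl) with ⟨h6, h7⟩ | ⟨s, a, d, h6, _, _, h7⟩
    · rcases h2 with rfl | h2
      · rw [h7, List.filter_append]
        exact ⟨_, rfl⟩
      · exact absurd ((h2.2 sa).2 rfl) (h6 sa (mem_sta.2 ⟨hs, rfl⟩))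
    · rcases h2 with rfl | h2
      · exact absurd h6 (not_lt_sa s)
      · obtain rfl := (h2.2 s).1 h6
        refine ⟨(a ++ f :: d).filter qu, ?_⟩
        rw [h7, ← List.cons_append, ← List.append_assoc, List.filter_append]
        rfl

theorem idx_erase {α : Type} [DecidableEq α] (q s : α) (hne : q ≠ s) (l : List α)
    (h : l.idxOf q ≤ l.idxOf s) : (l.erase s).idxOf q = l.idxOf q := by
  induction l with
  | nil => simp
  | cons d l ih =>
    by_cases h1 : d = q
    · subst h1
      rw [List.erase_cons_tail (by simpa using hne)]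
      simp
    · by_cases h2 : d = s
      · subst h2
        rw [List.idxOf_cons_ne _ h1] at h
        simp at h
      · rw [List.idxOf_cons_ne _ h1, List.idxOf_cons_ne _ h2] at h
        rw [List.erase_cons_tail (by simpa using h2), List.idxOf_cons_ne _ h1,
          List.idxOf_cons_ne _ h1, ih (by omega)]

theorem idx_sa {p : List (El A k K r M j)} (hn : (sta p).Nodup) (hy : y ∈ p) :
    ((psi p).erase sa ++ [sa]).idxOf y = (psi p).idxOf y := by
  have hy' : y ∈ psi p := mem_psi.2 ⟨hy, rfl⟩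
  rw [List.idxOf_append_of_mem ((List.mem_erase_of_ne (by simp)).2 hy')]
  refine idx_erase _ _ (by simp) _ ?_
  by_cases hs : sa ∈ psi p
  · exact (bef_idx (psi_nodup hn) (bef_of_lt (psi_revLin p) hy' hs (lt_y.2 rfl))).le
  · rw [List.idxOf_eq_length hs]
    exact List.idxOf_le_length

theorem idx_other (C : Ctx b s0 i0 u) (G : Good b) {p : List (El A k K r M j)}
    {e : El A k K r M j} (h : p ++ [e] <+: u) (hF : Fired b p) (hz : isZ e = false) :
    (psi (p ++ [e])).idxOf y = (psi p).idxOf y := by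
  obtain ⟨l0, hl0, hb0⟩ := id hF
  have h0 := C.le h (List.mem_append_left _ hl0)
  have h1 := G.hy
  have hyp : y ∈ p := C.early h C.mem_y (by omega)
  rcases vstep C G h (by omega) hz with ⟨_, h2⟩ | ⟨f, h2, h3, h4, h5⟩
  · rw [psi, h2]; rfl
  · have hfy : f ≠ y := by
      intro hf
      obtain ⟨l, rfl, h6⟩ := h3 hf
      exact not_first_y C G h hF h6
    rw [psi, h5]
    rcases h2 with rfl | h2
    · rw [mv_filter qu qu_down _ _ rfl, mv, ins_min _ _ (fun g _ => not_lt_sa g)]
      exact idx_sa (C.pnd' h) hyp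
    · have hq : ¬ qu f = true := by
        intro hq
        rcases h4 hq with rfl | rfl
        · exact absurd ((h2.2 sa).2 rfl) (lt_irrefl _)
        · exact hfy rfl
      rcases mv_filter_off qu (C.pnd' h) (isLow h2.1) hq with ⟨_, h6⟩ | ⟨s, _, h6, h7⟩
      · rw [h6]; rfl
      · obtain rfl := (h2.2 s).1 h6
        rw [h7]
        exact idx_sa (C.pnd' h) hyp

theorem zstep {p : List (El A k K r M j)} {i : Fin k} (hn : (p ++ [z i]).Nodup) (hy : y ∈ p) :
    ∃ f t, psi p = f :: t ∧ psi (p ++ [z i]) = mv (psi p) f := by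
  rcases sta_step p _ hn with ⟨_, h5, _⟩ | ⟨f, h4, h5, h6⟩
  · exact absurd (lt_z.2 rfl) (h5 _ hy)
  · rcases h5 with rfl | ⟨_, h5⟩
    · simp [low] at h4
    · have hq := lt_z.1 h5.2.1
      have hf : f ∈ psi p := mem_psi.2 ⟨(mem_sta.1 h5.1).1, hq⟩
      obtain ⟨g, t, hg⟩ := List.exists_cons_of_ne_nil (List.ne_nil_of_mem hf)
      have hgq : qu g = true := (mem_psi.1 (hg ▸ (by simp : g ∈ g :: t))).2
      have hgf : f = g := by
        by_contra hne
        rw [hg] at hf
        have hft : f ∈ t := by simpa [hne] using hf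
        refine h5.2.2 g (lt_z.2 hgq) (List.Sublist.trans ?_ (List.filter_sublist (p := qu)))
        change [g, f].Sublist (psi p)
        rw [hg]
        exact List.Sublist.cons_cons _ (List.singleton_sublist.2 hft)
      subst hgf
      refine ⟨f, t, hg, ?_⟩
      rw [psi, h6, mv_filter qu qu_down _ _ hq]
      rfl

theorem zstep_dec {p : List (El A k K r M j)} {i : Fin k} (hn : (p ++ [z i]).Nodup) (hy : y ∈ p)
    (hJ : 1 ≤ (psi p).idxOf y) : (psi (p ++ [z i])).idxOf y + 1 = (psi p).idxOf y := by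
  obtain ⟨f, t, h1, h2⟩ := zstep hn hy
  have hy' : y ∈ psi p := mem_psi.2 ⟨hy, rfl⟩
  have hq : qu f = true := (mem_psi.1 (h1 ▸ (by simp : f ∈ f :: t))).2
  rw [h2]
  rw [h1] at hJ hy' ⊢
  have hf : f ≠ y := by rintro rfl; simp at hJ
  have hyt : y ∈ t := by simpa [hf.symm] using hy'
  rw [mv, List.erase_cons_head, idx_ins y t f hyt, List.idxOf_cons_ne _ hf]
  intro hle
  rcases hle.eq_or_lt with h | h
  · exact hf h.symm
  · rcases y_lt.1 h with ⟨i, rfl⟩ | ⟨l, rfl⟩ <;> simp [qu] at hq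

theorem touch_y1 (l : List (El A k K r M j)) (hn : l.Nodup) (hy : y ∈ l) (hs : sa ∉ l) :
    (mv l y).idxOf y + 1 = l.length := by
  rw [mv, ins_min _ _ (fun g hg hl => hs (lt_y.1 hl ▸ List.mem_of_mem_erase hg)),
    List.idxOf_append_of_notMem hn.not_mem_erase, List.length_erase_of_mem hy]
  have := List.length_pos_of_mem hy
  simp
  omega

theorem touch_y2 (R : List (El A k K r M j)) (hn : (R ++ [sa]).Nodup) (hy : y ∈ R ++ [sa]) :
    (mv (R ++ [sa]) y).idxOf y + 2 = (R ++ [sa]).length := by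
  have hyR : y ∈ R := by simpa using hy
  have hs : sa ∉ R := fun h => (List.nodup_append.1 hn).2.2 _ h _ (by simp) rfl
  rw [mv, List.erase_append_left _ hyR,
    ins_append _ _ _ (fun g hg hl => hs (lt_y.1 hl ▸ List.mem_of_mem_erase hg)),
    List.idxOf_append_of_notMem (List.nodup_append.1 hn).1.not_mem_erase,
    List.length_erase_of_mem hyR]
  have := List.length_pos_of_mem hyR
  have hl : (sa : El A k K r M j) < y := lt_y.2 rfl
  simp [ins, hl]
  omega

theorem psi_length (C : Ctx b s0 i0 u) (G : Good b) {p : List (El A k K r M j)}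
    {e : El A k K r M j} (h : p ++ [e] <+: u) (he : 1 ≤ b e) : (psi p).length = A + 2 := by
  have hsub : ∀ g ∈ p, g ∈ u := fun g hg => h.subset (List.mem_append_left _ hg)
  have key : ∀ s1 : El A k K r M j, (s1 = sa ∧ s0 = sb ∨ s1 = sb ∧ s0 = sa) →
      (psi p).Perm (List.ofFn x ++ [y, s1]) := by
    intro s1 hs1
    rw [List.perm_ext_iff_of_nodup (psi_nodup (C.pnd' h))]
    · intro g
      rw [mem_psi]
      have h1 := G.hsa
      have h2 := G.hsb
      have h3 := G.hy
      have hg : qu g = true → (g ∈ p ↔ g ≠ s0) := by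
        intro hq
        refine ⟨fun hg => ((C.mem g).1 (hsub g hg)).1, fun hg => C.early h ((C.mem g).2
          ⟨hg, by rintro rfl; simp [qu] at hq⟩) ?_⟩
        cases g with
        | x i => have := G.hx i; omega
        | sa => omega
        | sb => omega
        | y => omega
        | _ => simp [qu] at hq
      rcases hs1 with ⟨rfl, rfl⟩ | ⟨rfl, rfl⟩ <;> cases g <;> simp_all [qu, List.mem_ofFn]
    · rw [List.nodup_append]
      refine ⟨List.nodup_ofFn.2 (fun i i' hi => by simpa using hi), ?_, ?_⟩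
      · rcases hs1 with ⟨rfl, _⟩ | ⟨rfl, _⟩ <;> simp
      · rcases hs1 with ⟨rfl, _⟩ | ⟨rfl, _⟩ <;> simp [List.mem_ofFn]
  rcases C.star with hs | hs
  · simpa using (key sb (Or.inr ⟨rfl, hs⟩)).length_eq
  · simpa using (key sa (Or.inl ⟨rfl, hs⟩)).length_eq

theorem n4_zero (C : Ctx b s0 i0 u) {p : List (El A k K r M j)}
    {e : El A k K r M j} (h : p ++ [e] <+: u) (he : b e ≤ 3) : n4 b (p ++ [e]) = 0 := by
  rw [n4, List.countP_eq_zero]
  intro g hg
  have := C.le h hg
  simp only [Bool.and_eq_true, decide_eq_true_eq, not_and]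
  omega

theorem post_z (C : Ctx b s0 i0 u) (G : Good b) {p : List (El A k K r M j)}
    {i : Fin k} (h : p ++ [z i] <+: u) (hF : Fired b p) : b (z i) = 4 ∧ y ∈ p := by
  obtain ⟨l0, hl0, hb0⟩ := hF
  have h0 := C.le h (List.mem_append_left _ hl0)
  have h1 := G.hy
  have h2 := G.hz i
  exact ⟨by omega, C.early h C.mem_y (by omega)⟩

theorem inv_one (C : Ctx b sa i0 u) (G : Good b) : ∀ p, p <+: u → Fired b p →
    n4 b p ≤ A + 1 → (psi p).idxOf y + n4 b p = A + 1 := by
  refine prefix_ind u _ (by simp [Fired]) (fun p e h ih hF hn => ?_)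
  by_cases hFp : Fired b p
  · rw [n4_snoc] at hn ⊢
    cases hz : isZ e with
    | false =>
      simp only [hz, Bool.false_eq_true, false_and, if_false, Nat.add_zero] at hn ⊢
      rw [idx_other C G h hFp hz]
      exact ih hFp hn
    | true =>
      obtain ⟨i, rfl⟩ : ∃ i, e = z i := by cases e <;> simp_all [isZ]
      obtain ⟨h4, hy⟩ := post_z C G h hFp
      simp only [hz, h4, and_self, if_true] at hn ⊢
      have := ih hFp (by omega)
      have := zstep_dec (C.pnd h) hy (by omega)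
      omega
  · obtain ⟨h1, _, h3⟩ := fire_step C G h hFp hF
    have h4 := G.hy
    rw [n4_zero C h (by omega), psi, h3, mv_filter qu qu_down _ _ rfl]
    have := touch_y1 (psi p) (psi_nodup (C.pnd' h))
      (mem_psi.2 ⟨C.early h C.mem_y (by omega), rfl⟩)
      (fun hs => ((C.mem sa).1 (h.subset (List.mem_append_left _ (mem_psi.1 hs).1))).1 rfl)
    rw [psi_length C G h (by omega)] at this
    unfold psi at this
    omega

theorem inv_two (C : Ctx b sb i0 u) (G : Good b) (hN : NoAdj u) : ∀ p, p <+: u → Fired b p →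
    n4 b p ≤ 2 * A → (n4 b p ≤ A → (psi p).idxOf y + n4 b p = A) ∧
      (A + 1 ≤ n4 b p → (psi p).idxOf y + n4 b p = 2 * A + 1) := by
  refine prefix_ind u _ (by simp [Fired]) (fun p e h ih hF hn => ?_)
  have hpre : p <+: u := (List.prefix_append p _).trans h
  have hlast : ∀ g ∈ p, 1 ≤ b g → ∃ p' e', p = p' ++ [e'] ∧ b g ≤ b e' := by
    intro g hg _
    obtain ⟨p', e', rfl⟩ := (List.eq_nil_or_concat' p).resolve_left (List.ne_nil_of_mem hg)
    exact ⟨p', e', rfl, C.le hpre hg⟩
  by_cases hFp : Fired b p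
  · rw [n4_snoc] at hn ⊢
    cases hz : isZ e with
    | false =>
      simp only [hz, Bool.false_eq_true, false_and, if_false, Nat.add_zero] at hn ⊢
      rw [idx_other C G h hFp hz]
      exact ih hFp hn
    | true =>
      obtain ⟨i, rfl⟩ : ∃ i, e = z i := by cases e <;> simp_all [isZ]
      obtain ⟨h4, hy⟩ := post_z C G h hFp
      simp only [hz, h4, and_self, if_true] at hn ⊢
      have h5 := ih hFp (by omega)
      by_cases hA : n4 b p = A
      · have h6 : (psi p).idxOf y = 0 := by omega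
        obtain ⟨f, t, h7, h8⟩ := zstep (C.pnd h) hy
        have hf : f = y := by
          by_contra hne
          rw [h7, List.idxOf_cons_ne _ hne] at h6
          omega
        subst hf
        obtain ⟨l0, hl0, hb0⟩ := hFp
        obtain ⟨p', e', rfl, hb⟩ := hlast _ hl0 (by omega)
        have hz' : isZ e' = false := by
          cases e' with
          | z i' => exact absurd h (hN p' i' i)
          | _ => rfl
        obtain ⟨R, hR⟩ := last_sa C G hpre (by omega) hz'
        have h9 := touch_y2 R (hR ▸ psi_nodup (C.pnd' h)) (hR ▸ mem_psi.2 ⟨hy, rfl⟩)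
        rw [← hR, ← h8, psi_length C G h (by omega)] at h9
        omega
      · have := zstep_dec (C.pnd h) hy (by omega)
        omega
  · obtain ⟨h1, ⟨l, hl⟩, h3⟩ := fire_step C G h hFp hF
    have h4 := G.hy
    obtain ⟨i, hi⟩ := G.hfro l
    obtain ⟨p', e', rfl, hb⟩ := hlast _ (C.early h (C.mem_v l i) (by omega)) (by omega)
    have hle := C.le h (List.mem_append_left _ (by simp : e' ∈ p' ++ [e']))
    have hz' : isZ e' = false := by
      cases e' with
      | z i' => have := G.hz i'; omega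
      | _ => rfl
    obtain ⟨R, hR⟩ := last_sa C G hpre (by omega) hz'
    have h9 := touch_y2 R (hR ▸ psi_nodup (C.pnd' h))
      (hR ▸ mem_psi.2 ⟨C.early h C.mem_y (by omega), rfl⟩)
    rw [← hR, psi_length C G h (by omega)] at h9
    rw [n4_zero C h (by omega), psi, h3, mv_filter qu qu_down _ _ rfl]
    unfold psi at h9
    omega

theorem fired_all (C : Ctx b s0 i0 u) (G : Good b) : Fired b u := by
  obtain ⟨l, hl⟩ := G.hfire
  exact ⟨l, C.mem_w2 l, hl⟩

theorem end_one (C : Ctx b sa i0 u) (G : Good b) (hn : n4 b u = A + 1) :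
    sa < endc (u.foldl ins []) (z i0) := by
  have h1 := inv_one C G u List.prefix_rfl (fired_all C G) hn.le
  have hy : y ∈ psi u := mem_psi.2 ⟨C.mem_y, rfl⟩
  obtain ⟨g, t, hg⟩ := List.exists_cons_of_ne_nil (List.ne_nil_of_mem hy)
  have hs : sa ∉ psi u := fun hs => ((C.mem sa).1 (mem_psi.1 hs).1).1 rfl
  rw [endc_z, hg]
  rw [hg] at h1 hs
  have hgy : g = y := by
    by_contra hne
    rw [List.idxOf_cons_ne _ hne] at h1
    omega
  subst hgy
  have hl : (y : El A k K r M j) < z i0 := lt_z.2 rfl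
  simp only [endc, hl, if_true]
  rw [endc_min _ _ (fun g hg hl => hs (List.mem_cons_of_mem _ (lt_y.1 hl ▸ hg)))]
  exact lt_y.2 rfl

theorem end_two (C : Ctx b sb i0 u) (G : Good b) (hN : NoAdj u) (h1 : n4 b u ≠ A)
    (h2 : n4 b u ≤ 2 * A) : sb < endc (u.foldl ins []) (z i0) := by
  have h3 := inv_two C G hN u List.prefix_rfl (fired_all C G) h2
  have hy : y ∈ psi u := mem_psi.2 ⟨C.mem_y, rfl⟩
  obtain ⟨g, t, hg⟩ := List.exists_cons_of_ne_nil (List.ne_nil_of_mem hy)
  have hs : sb ∉ psi u := fun hs => ((C.mem sb).1 (mem_psi.1 hs).1).1 rfl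
  have hq : qu g = true := (mem_psi.1 (hg ▸ (by simp : g ∈ g :: t))).2
  have hr := psi_revLin u
  rw [endc_z, hg]
  rw [hg] at h3 hs hy hr
  have hgy : g ≠ y := by
    rintro rfl
    simp only [List.idxOf_cons_self] at h3
    omega
  have hyt : y ∈ t := by simpa [hgy.symm] using hy
  have hl : g < z i0 := lt_z.2 hq
  simp only [endc, hl, if_true]
  cases g with
  | x i =>
    rw [endc_min _ _ (fun g hg hl => hs (List.mem_cons_of_mem _ (lt_x.1 hl ▸ hg)))]
    exact lt_x.2 rfl
  | sa => exact absurd (lt_y.2 rfl) ((List.pairwise_cons.1 hr).1 y hyt)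
  | sb => simp at hs
  | y => exact absurd rfl hgy
  | _ => simp [qu] at hq

end Pool.Agent.Lib.MP_ac744f_co
end

-- part Pool.Agent.Lib.MP_ac744f_co.Bad
section

/-!
The good event has probability close to one.
-/

set_option autoImplicit false
set_option linter.unusedSectionVars false

namespace Pool.Agent.Lib.MP_ac744f_co

open El

variable {A k K r M j : ℕ}

/-- weights of the five phases -/
noncomputable def qw (a q3 q4 : ℝ) : Fin 5 → ℝ := ![1 - (a + a + q3 + q4), a, a, q3, q4]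

theorem qw_isW {a q3 q4 : ℝ} (ha : 0 ≤ a) (h3 : 0 ≤ q3) (h4 : 0 ≤ q4)
    (h : a + a + q3 + q4 ≤ 1) : IsW (qw a q3 q4) := by
  refine ⟨fun b => ?_, ?_⟩
  · fin_cases b <;> simp [qw] <;> linarith
  · simp [qw, Fin.sum_univ_five]
    ring

theorem qs_qw (a q3 q4 : ℝ) (S : ℕ → Prop) : qs (qw a q3 q4) (fun b => S (b : ℕ)) =
    (1 - (a + a + q3 + q4)) * ind (S 0) + a * ind (S 1) + a * ind (S 2) + q3 * ind (S 3) +
      q4 * ind (S 4) := by
  simp [qs, qw, Fin.sum_univ_five]

theorem pr_or_le {E B : Type} [Fintype E] [Fintype B] {q : B → ℝ} (hq : IsW q)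
    {G H : (E → B) → Prop} {s t : ℝ} (h1 : Pr q G ≤ s) (h2 : Pr q H ≤ t) :
    Pr q (fun β => G β ∨ H β) ≤ s + t := (pr_or hq G H).trans (add_le_add h1 h2)

/-- the phases as natural numbers -/
def ph (β : El A k K r M j → Fin 5) : El A k K r M j → ℕ := fun e => β e

def blk (l : Fin K) (i : Fin r) : Fin M × Option (Fin j) → El A k K r M j
  | (m, none) => w1 l i m
  | (m, some s) => c l i m s

theorem blk_inj (l : Fin K) (i : Fin r) :
    Function.Injective (blk l i : Fin M × Option (Fin j) → El A k K r M j) := by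
  rintro ⟨m, _ | s⟩ ⟨m', _ | s'⟩ h <;> simp_all [blk]

def blkS : Option (Fin j) → Fin 5 → Prop
  | none, b => (b : ℕ) = 1
  | some _, b => (b : ℕ) ≠ 0

theorem pr_bad {a q3 q4 : ℝ} (hq : IsW (qw a q3 q4)) :
    Pr (qw a q3 q4) (fun β : El A k K r M j → Fin 5 => ¬ Good (ph β)) ≤
      (A + 3) * (a + a + q3 + q4) + k * (a + a + q3) + K * (a + a) + (1 - q3) ^ K +
        K * (1 - a) ^ r + (K * r : ℝ) * (1 - a * (a + a + q3 + q4) ^ j) ^ M +
        (K * r : ℝ) * (M * (a + q3 + q4) ^ j) := by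
  set q := qw a q3 q4 with hqd
  have e0 : qs q (fun b => (b : ℕ) ≠ 0) = a + a + q3 + q4 := by
    rw [hqd, qs_qw a q3 q4 (fun b => b ≠ 0)]; simp [ind]
  have e1 : qs q (fun b => (b : ℕ) = 1) = a := by
    rw [hqd, qs_qw a q3 q4 (fun b => b = 1)]; simp [ind]
  have ez : qs q (fun b => ¬ ((b : ℕ) = 0 ∨ (b : ℕ) = 4)) = a + a + q3 := by
    rw [hqd, qs_qw a q3 q4 (fun b => ¬ (b = 0 ∨ b = 4))]; simp [ind]
  have ew : qs q (fun b => ¬ ((b : ℕ) ≠ 1 ∧ (b : ℕ) ≠ 2)) = a + a := by
    rw [hqd, qs_qw a q3 q4 (fun b => ¬ (b ≠ 1 ∧ b ≠ 2))]; simp [ind]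
  have e3 : qs q (fun b => (b : ℕ) ≠ 3) = 1 - q3 := by
    rw [hqd, qs_qw a q3 q4 (fun b => b ≠ 3)]; simp [ind]; ring
  have e2 : qs q (fun b => (b : ℕ) ≠ 2) = 1 - a := by
    rw [hqd, qs_qw a q3 q4 (fun b => b ≠ 2)]; simp [ind]; ring
  have e4 : qs q (fun b => ¬ (b : ℕ) ≤ 1) = a + q3 + q4 := by
    rw [hqd, qs_qw a q3 q4 (fun b => ¬ b ≤ 1)]; simp [ind]
  have p0 : ∀ e : El A k K r M j, Pr q (fun β => ph β e ≠ 0) ≤ a + a + q3 + q4 :=
    fun e => ((pr_one hq e (fun b => (b : ℕ) ≠ 0)).trans e0).le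
  have px := pr_exists hq (fun (i : Fin A) (β : El A k K r M j → Fin 5) => ph β (x i) ≠ 0) _
    (fun i => p0 (x i))
  have pz := pr_exists hq
    (fun (i : Fin k) (β : El A k K r M j → Fin 5) => ¬ (ph β (z i) = 0 ∨ ph β (z i) = 4)) _
    (fun i => ((pr_one hq (z i) (fun b => ¬ ((b : ℕ) = 0 ∨ (b : ℕ) = 4))).trans ez).le)
  have pw := pr_exists hq
    (fun (l : Fin K) (β : El A k K r M j → Fin 5) => ¬ (ph β (w2 l) ≠ 1 ∧ ph β (w2 l) ≠ 2)) _
    (fun l => ((pr_one hq (w2 l) (fun b => ¬ ((b : ℕ) ≠ 1 ∧ (b : ℕ) ≠ 2))).trans ew).le)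
  have pf : Pr q (fun β : El A k K r M j → Fin 5 => ∀ l, ph β (w2 l) ≠ 3) ≤ (1 - q3) ^ K := by
    have := pr_all hq (fun l : Fin K => (w2 l : El A k K r M j)) (fun _ _ h => by simpa using h)
      (fun _ b => (b : ℕ) ≠ 3)
    rw [e3] at this
    simpa [ph] using this.le
  have pv := pr_exists hq
    (fun (l : Fin K) (β : El A k K r M j → Fin 5) => ∀ i, ph β (v l i) ≠ 2) ((1 - a) ^ r)
    (fun l => by
      have := pr_all hq (fun i : Fin r => (v l i : El A k K r M j))
        (fun _ _ h => by simpa using h) (fun _ b => (b : ℕ) ≠ 2)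
      rw [e2] at this
      simpa [ph] using this.le)
  have pk := pr_exists hq
    (fun (t : Fin K × Fin r) (β : El A k K r M j → Fin 5) =>
      ∀ m, ¬ ∀ s, blkS s (β (blk t.1 t.2 (m, s)))) ((1 - a * (a + a + q3 + q4) ^ j) ^ M)
    (fun t => by
      have := pr_blocks hq (blk (A := A) (k := k) (M := M) (j := j) t.1 t.2) (blk_inj t.1 t.2) blkS
      rw [Fintype.prod_option] at this
      have h1 : qs q (blkS (none : Option (Fin j))) = a := e1
      have h2 : ∀ s : Fin j, qs q (blkS (some s)) = a + a + q3 + q4 := fun _ => e0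
      simp only [h1, h2, Finset.prod_const, Finset.card_univ, Fintype.card_fin] at this
      exact this.le)
  have ps := pr_exists hq
    (fun (t : Fin K × Fin r × Fin M) (β : El A k K r M j → Fin 5) =>
      ∀ s, ¬ ph β (c t.1 t.2.1 t.2.2 s) ≤ 1) ((a + q3 + q4) ^ j)
    (fun t => by
      have := pr_all hq (fun s : Fin j => (c t.1 t.2.1 t.2.2 s : El A k K r M j))
        (fun _ _ h => by simpa using h) (fun _ b => ¬ (b : ℕ) ≤ 1)
      rw [e4] at this
      simpa [ph] using this.le)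
  have hall := pr_or_le hq px (pr_or_le hq (p0 y) (pr_or_le hq (p0 sa) (pr_or_le hq (p0 sb)
    (pr_or_le hq pz (pr_or_le hq pw (pr_or_le hq pf (pr_or_le hq pv (pr_or_le hq pk ps))))))))
  refine (pr_mono hq (fun β hβ => ?_)).trans (hall.trans (le_of_eq ?_))
  · by_contra hcon
    simp only [not_or, not_exists, not_forall, not_not] at hcon
    obtain ⟨h1, h2, h3, h4, h5, h6, h7, h8, h9, h10⟩ := hcon
    refine hβ ⟨h1, h2, h3, h4, fun i => by have := h5 i; omega, h6, h7, h8, fun l i => ?_, fun l i m => h10 (l, i, m)⟩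
    obtain ⟨m, hm⟩ := h9 (l, i)
    exact ⟨m, hm none, fun s => hm (some s)⟩
  · simp only [Fintype.card_fin, Fintype.card_prod]
    push_cast
    ring

end Pool.Agent.Lib.MP_ac744f_co
end

-- part Pool.Agent.Lib.MP_ac744f_co.Count
section

/-!
Counting tangled labelings by the last two letters of their words.
-/

set_option autoImplicit false
set_option linter.unusedSectionVars false

namespace Pool.Agent.Lib.MP_ac744f_co

variable {P : Type} [PartialOrder P] [DecidableEq P] [DecidableLT P]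

theorem endc_spec (r : List P) : ∀ e : P, endc r e ≤ e ∧ endc r e ∈ e :: r := by
  induction r with
  | nil => intro e; simp [endc]
  | cons c r ih =>
    intro e
    by_cases h : c < e
    · simp only [endc, h, if_true]
      exact ⟨(ih c).1.trans h.le, List.mem_cons_of_mem _ (ih c).2⟩
    · simp only [endc, h, if_false]
      refine ⟨(ih e).1, ?_⟩
      have := (ih e).2
      simp only [List.mem_cons] at this ⊢
      tauto

/-- the word of an ordering of the elements other than `a` and `e` -/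
def wd {N : ℕ} {a e : P} (o : Fin N ≃ {g : P // g ≠ a ∧ g ≠ e}) : List P :=
  List.ofFn (fun i => (o i : P))

def Suc (a e : P) (u : List P) : Prop := (∀ c, ¬ c < a) ∧ a < endc (u.foldl ins []) e

noncomputable def cnt (N : ℕ) (a e : P) : ℕ :=
  {o : Fin N ≃ {g : P // g ≠ a ∧ g ≠ e} | Suc a e (wd o)}.ncard

theorem wd_nodup {N : ℕ} {a e : P} (o : Fin N ≃ {g : P // g ≠ a ∧ g ≠ e}) : (wd o).Nodup :=
  List.nodup_ofFn.2 (Subtype.val_injective.comp o.injective)

theorem mem_wd {N : ℕ} {a e : P} (o : Fin N ≃ {g : P // g ≠ a ∧ g ≠ e}) (g : P) :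
    g ∈ wd o ↔ g ≠ a ∧ g ≠ e := by
  rw [wd, List.mem_ofFn]
  constructor
  · rintro ⟨i, rfl⟩
    exact (o i).2
  · intro h
    exact ⟨o.symm ⟨g, h⟩, by simp⟩

theorem wd_inj {N : ℕ} {a e : P} (o o' : Fin N ≃ {g : P // g ≠ a ∧ g ≠ e}) (h : wd o = wd o') :
    o = o' := by
  have := List.ofFn_injective h
  ext i
  exact congrFun this i

theorem Suc.ne {a e : P} {u : List P} (h : Suc a e u) : a ≠ e :=
  (h.2.trans_le (endc_spec _ e).1).ne

theorem suc_triv {N : ℕ} {a e : P} (ha : ∀ c, ¬ c < a) (hae : a ≠ e)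
    (h : ∀ g, g ≤ e → g ≠ a → a < g) (o : Fin N ≃ {g : P // g ≠ a ∧ g ≠ e}) :
    Suc a e (wd o) := by
  refine ⟨ha, h _ (endc_spec _ e).1 (fun h1 => ?_)⟩
  have h2 := (endc_spec ((wd o).foldl ins []) e).2
  rw [h1, List.mem_cons, (foldl_perm _).mem_iff, mem_wd] at h2
  tauto

theorem full_nodup {N : ℕ} {a e : P} (hae : a ≠ e) (o : Fin N ≃ {g : P // g ≠ a ∧ g ≠ e}) :
    (wd o ++ [e] ++ [a]).Nodup := by
  have h1 := wd_nodup o
  have h2 := mem_wd o
  simp only [List.append_assoc, List.singleton_append, List.nodup_append, h1, true_and,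
    List.nodup_cons, List.not_mem_nil, not_false_eq_true, List.nodup_nil,
    and_true, List.mem_cons, or_false]
  refine ⟨hae.symm, fun g hg f hf => ?_⟩
  rcases hf with rfl | rfl
  · exact ((h2 g).1 hg).2
  · exact ((h2 g).1 hg).1

theorem full_mem {N : ℕ} {a e : P} (o : Fin N ≃ {g : P // g ≠ a ∧ g ≠ e}) (g : P) :
    g ∈ wd o ++ [e] ++ [a] := by
  simp only [List.mem_append, List.mem_singleton, mem_wd]
  tauto

variable [Fintype P]

theorem card_two {N : ℕ} (hN : Fintype.card P = N + 2) {a e : P} (hae : a ≠ e) :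
    Nat.card {g : P // g ≠ a ∧ g ≠ e} = N := by
  rw [Nat.card_eq_fintype_card, Fintype.card_subtype]
  have : Finset.univ.filter (fun g : P => g ≠ a ∧ g ≠ e) = (Finset.univ.erase a).erase e := by
    ext g
    simp [and_comm]
  rw [this, Finset.card_erase_of_mem (by simp [hae.symm]), Finset.card_erase_of_mem (by simp),
    Finset.card_univ, hN]
  rfl

theorem count_ge (N : ℕ) :
    ∑ t : P × P, cnt N t.1 t.2 ≤ {L : P → ℕ | IsLabeling L ∧ Tangled L}.ncard := by
  have hfin : {L : P → ℕ | IsLabeling L ∧ Tangled L}.Finite := by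
    refine (Set.Finite.pi' (fun _ : P => Set.finite_Icc 1 (Fintype.card P))).subset ?_
    intro L hL x
    exact hL.1.mapsTo trivial
  have := hfin.to_subtype
  let f : (Σ t : P × P, {o : Fin N ≃ {g : P // g ≠ t.1 ∧ g ≠ t.2} | Suc t.1 t.2 (wd o)}) →
      {L : P → ℕ | IsLabeling L ∧ Tangled L} := fun s =>
    ⟨lab (wd s.2.1 ++ [s.1.2] ++ [s.1.1]),
      lab_isLabeling _ (full_nodup s.2.2.ne _) (full_mem _),
      tangled_of _ _ _ (full_nodup s.2.2.ne _) (full_mem _) s.2.2.1
        (by rw [List.foldl_append, List.foldl_cons, List.foldl_nil, getLast_ins]) s.2.2.2⟩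
  have hf : Function.Injective f := by
    rintro ⟨⟨a, e⟩, o, ho⟩ ⟨⟨a', e'⟩, o', ho'⟩ h
    have h1 := lab_inj _ _ (full_nodup ho.ne o) (full_mem o) (full_nodup ho'.ne o') (full_mem o')
      (congrArg Subtype.val h)
    obtain ⟨h2, h3⟩ := List.append_inj' h1 rfl
    obtain ⟨h4, h5⟩ := List.append_inj' h2 rfl
    obtain rfl : a = a' := by simpa using h3
    obtain rfl : e = e' := by simpa using h5
    obtain rfl := wd_inj _ _ h4
    rfl
  have h6 := Nat.card_le_card_of_injective f hf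
  rw [Nat.card_sigma] at h6
  exact h6

omit [Fintype P] [PartialOrder P] [DecidableEq P] [DecidableLT P] in
theorem adj_of_pre {N : ℕ} (f : Fin N → P) (p : List P) (g g' : P)
    (h : p ++ [g] ++ [g'] <+: List.ofFn f) :
    ∃ a b : Fin N, f a = g ∧ f b = g' ∧ (b : ℕ) = a + 1 := by
  obtain ⟨t, ht⟩ := h
  have hl := congrArg List.length ht
  simp only [List.length_append, List.length_singleton, List.length_ofFn] at hl
  have h1 : (List.ofFn f)[p.length]? = some g := by
    rw [← ht]; simp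
  have h2 : (List.ofFn f)[p.length + 1]? = some g' := by
    rw [← ht]; simp
  rw [List.getElem?_ofFn, dif_pos (by omega)] at h1 h2
  exact ⟨_, _, Option.some.inj h1, Option.some.inj h2, rfl⟩

omit [Fintype P] [PartialOrder P] [DecidableLT P] in
theorem countP_ncard (u : List P) (hn : u.Nodup) (p : P → Bool) :
    u.countP p = {e | e ∈ u ∧ p e = true}.ncard := by
  rw [List.countP_eq_length_filter, ← List.toFinset_card_of_nodup (hn.filter p),
    ← Set.ncard_coe_finset]
  congr 1
  ext e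
  simp

end Pool.Agent.Lib.MP_ac744f_co
end

-- part Pool.Agent.Lib.MP_ac744f_co.Main
section

/-!
The count of tangled labelings of the poset `El`.
-/

set_option autoImplicit false
set_option linter.unusedSectionVars false

namespace Pool.Agent.Lib.MP_ac744f_co

open El

variable {A k K r M j : ℕ}

/-- number of the other queue tops in phase 4 -/
noncomputable def Zc (i0 : Fin k) (β : El A k K r M j → Fin 5) : ℕ :=
  {i : {i : Fin k // i ≠ i0} | ((β (z i.1) : Fin 5) : ℕ) = 4}.ncard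

theorem zinj (i0 : Fin k) :
    Function.Injective (fun i : {i : Fin k // i ≠ i0} => (z i.1 : El A k K r M j)) :=
  fun _ _ h => Subtype.ext (by simpa using h)

theorem ctx_of {N : ℕ} {s0 : El A k K r M j} {i0 : Fin k} (hs : s0 = sa ∨ s0 = sb)
    (o : Fin N ≃ {g : El A k K r M j // g ≠ s0 ∧ g ≠ z i0}) (β : El A k K r M j → Fin 5)
    (hm : Monotone (fun i => β (o i))) : Ctx (ph β) s0 i0 (wd o) :=
  ⟨wd_nodup o, mem_wd o, List.pairwise_ofFn.2 (fun _ _ h => hm h.le), hs⟩

theorem n4_eq {N : ℕ} {s0 : El A k K r M j} {i0 : Fin k} (hs : s0 = sa ∨ s0 = sb)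
    (o : Fin N ≃ {g : El A k K r M j // g ≠ s0 ∧ g ≠ z i0}) (β : El A k K r M j → Fin 5) :
    n4 (ph β) (wd o) = Zc i0 β := by
  rw [n4, countP_ncard _ (wd_nodup o), Zc, ← Set.ncard_image_of_injective _ (zinj (A := A)
    (K := K) (r := r) (M := M) (j := j) i0)]
  congr 1
  ext e
  simp only [mem_wd, Set.mem_ofPred_eq, Set.mem_image]
  constructor
  · rintro ⟨⟨h1, h2⟩, h3⟩
    cases e with
    | z i => exact ⟨⟨i, fun h => h2 (by rw [h])⟩, by simpa [isZ, ph] using h3, rfl⟩
    | _ => simp [isZ] at h3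
  · rintro ⟨i, h1, rfl⟩
    refine ⟨⟨?_, ?_⟩, by simpa [isZ, ph] using h1⟩
    · rcases hs with rfl | rfl <;> simp
    · simpa using i.2

variable {q : Fin 5 → ℝ} {N : ℕ}

theorem cnt_one (hq : IsW q) (hN : Fintype.card (El A k K r M j) = N + 2) (i0 : Fin k) :
    Pr q (fun β : El A k K r M j → Fin 5 => Good (ph β) ∧ Zc i0 β = A + 1) * N.factorial ≤
      cnt N (sa : El A k K r M j) (z i0) :=
  coupling' hq _ N (card_two hN (by simp)) _ _ (fun o β hm hG =>
    ⟨not_lt_sa, end_one (ctx_of (Or.inl rfl) o β hm) hG.1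
      ((n4_eq (Or.inl rfl) o β).trans hG.2)⟩)

theorem adj_bound (hN : Fintype.card (El A k K r M j) = N + 2) (i0 : Fin k) :
    ((N : ℝ) - 1) * {o : Fin N ≃ {g : El A k K r M j // g ≠ sb ∧ g ≠ z i0} |
      ¬ NoAdj (wd o)}.ncard ≤ k ^ 2 * N.factorial := by
  let T : Fin k × Fin k → Set (Fin N ≃ {g : El A k K r M j // g ≠ sb ∧ g ≠ z i0}) := fun t =>
    {o | ∃ g g' : {g : El A k K r M j // g ≠ sb ∧ g ≠ z i0},
      g.1 = z t.1 ∧ g'.1 = z t.2 ∧ Adj o g g'}
  have hT : ∀ t, ((N : ℝ) - 1) * (T t).ncard ≤ N.factorial := by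
    intro t
    by_cases h : ∃ o, o ∈ T t
    · obtain ⟨o, g, g', h1, h2, -⟩ := h
      have : T t = {o | Adj o g g'} := by
        ext o
        constructor
        · rintro ⟨f, f', h3, h4, h5⟩
          obtain rfl : f = g := Subtype.ext (h3.trans h1.symm)
          obtain rfl : f' = g' := Subtype.ext (h4.trans h2.symm)
          exact h5
        · exact fun h => ⟨g, g', h1, h2, h⟩
      rw [this]
      exact adj_count' (card_two hN (by simp)) g g'
    · have : T t = ∅ := Set.eq_empty_of_forall_notMem (fun o ho => h ⟨o, ho⟩)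
      rw [this]
      simp
  have hsub : {o : Fin N ≃ {g : El A k K r M j // g ≠ sb ∧ g ≠ z i0} | ¬ NoAdj (wd o)} ⊆
      ⋃ t, T t := by
    intro o ho
    simp only [NoAdj, Set.mem_ofPred_eq, not_forall, not_not] at ho
    obtain ⟨p, i, i', h⟩ := ho
    obtain ⟨a, b, h1, h2, h3⟩ := adj_of_pre _ p _ _ h
    exact Set.mem_iUnion.2 ⟨(i, i'), o a, o b, h1, h2, by simpa [Adj] using h3⟩
  have h1 := (Set.ncard_le_ncard hsub).trans (Set.ncard_iUnion_le_of_fintype T)
  by_cases h0 : N = 0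
  · subst h0
    have : (0 : ℝ) ≤ {o : Fin 0 ≃ {g : El A k K r M j // g ≠ sb ∧ g ≠ z i0} |
      ¬ NoAdj (wd o)}.ncard := Nat.cast_nonneg _
    have h2 : (0 : ℝ) ≤ (k : ℝ) ^ 2 := by positivity
    simp only [Nat.cast_zero, Nat.factorial_zero, Nat.cast_one]
    linarith
  have hN1 : (0 : ℝ) ≤ (N : ℝ) - 1 := by
    have : (1 : ℝ) ≤ N := by exact_mod_cast Nat.one_le_iff_ne_zero.2 h0
    linarith
  calc _ ≤ ((N : ℝ) - 1) * ∑ t, ((T t).ncard : ℝ) := by
        refine mul_le_mul_of_nonneg_left ?_ hN1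
        exact_mod_cast h1
    _ = ∑ t, ((N : ℝ) - 1) * (T t).ncard := by rw [Finset.mul_sum]
    _ ≤ ∑ _t : Fin k × Fin k, (N.factorial : ℝ) := Finset.sum_le_sum (fun t _ => hT t)
    _ = _ := by simp [sq]

theorem cnt_two (hq : IsW q) (hN : Fintype.card (El A k K r M j) = N + 2) (i0 : Fin k) :
    Pr q (fun β : El A k K r M j → Fin 5 => Good (ph β) ∧ Zc i0 β ≠ A ∧ Zc i0 β ≤ 2 * A) *
      N.factorial ≤ cnt N (sb : El A k K r M j) (z i0) +
      {o : Fin N ≃ {g : El A k K r M j // g ≠ sb ∧ g ≠ z i0} | ¬ NoAdj (wd o)}.ncard := by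
  have h1 := coupling' hq (fun g : El A k K r M j => g ≠ sb ∧ g ≠ z i0) N
    (card_two hN (by simp))
    (fun β => Good (ph β) ∧ Zc i0 β ≠ A ∧ Zc i0 β ≤ 2 * A)
    (fun o => Suc sb (z i0) (wd o) ∨ ¬ NoAdj (wd o)) (fun o β hm hG => by
      by_cases hA : NoAdj (wd o)
      · have h2 := n4_eq (Or.inr rfl) o β
        exact Or.inl ⟨not_lt_sb, end_two (ctx_of (Or.inr rfl) o β hm) hG.1 hA (h2 ▸ hG.2.1)
          (h2 ▸ hG.2.2)⟩
      · exact Or.inr hA)
  refine h1.trans ?_
  rw [Set.ofPred_or]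
  exact_mod_cast Set.ncard_union_le _ _

theorem cnt_triv (hq : IsW q) (hN : Fintype.card (El A k K r M j) = N + 2)
    {a e : El A k K r M j} (ha : ∀ c, ¬ c < a) (hae : a ≠ e)
    (h : ∀ g, g ≤ e → g ≠ a → a < g) : (N.factorial : ℝ) ≤ cnt N a e := by
  have h1 := coupling' hq (fun g : El A k K r M j => g ≠ a ∧ g ≠ e) N (card_two hN hae)
    (fun _ => True) (fun o => Suc a e (wd o)) (fun o _ _ _ => suc_triv ha hae h o)
  rw [pr_true hq, one_mul] at h1
  exact h1

theorem cnt_other (hq : IsW q) (hN : Fintype.card (El A k K r M j) = N + 2)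
    (e : El A k K r M j) (h1 : e ≠ sa) (h2 : e ≠ sb) (h3 : isZ e = false) :
    (N.factorial : ℝ) ≤ cnt N sa e + cnt N sb e := by
  have n1 : (0 : ℝ) ≤ cnt N sa e := Nat.cast_nonneg _
  have n2 : (0 : ℝ) ≤ cnt N sb e := Nat.cast_nonneg _
  by_cases hx : ∃ i, e = x i
  · obtain ⟨i, rfl⟩ := hx
    have := cnt_triv hq hN not_lt_sb h2.symm (fun g hg hne => by
      rcases eq_or_lt_of_le hg with rfl | hl
      · exact lt_x.2 rfl
      · exact absurd (lt_x.1 hl) hne)
    linarith
  · have := cnt_triv hq hN not_lt_sa h1.symm (fun g hg hne => by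
      rcases eq_or_lt_of_le hg with rfl | hl
      · rw [lt_iff]
        cases g <;> simp_all [ltb]
      · rw [lt_iff] at hl ⊢
        cases g <;> cases e <;> simp_all [ltb, isZ])
    linarith

theorem card_ge : K + 3 ≤ Fintype.card (El A k K r M j) := by
  let f : Fin K ⊕ Fin 3 → El A k K r M j := fun t =>
    match t with
    | Sum.inl l => w2 l
    | Sum.inr 0 => sa
    | Sum.inr 1 => sb
    | Sum.inr 2 => y
  have hf : Function.Injective f := by
    rintro (l | i) (l' | i') h
    · simpa [f] using h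
    · fin_cases i' <;> simp [f] at h
    · fin_cases i <;> simp [f] at h
    · fin_cases i <;> fin_cases i' <;> simp [f] at h ⊢
  simpa using Fintype.card_le_of_injective f hf

theorem total (hq : IsW q) (hN : Fintype.card (El A k K r M j) = N + 2) (D : ℝ) (hD : 0 ≤ D)
    (hz : ∀ i : Fin k, (1 + D) * N.factorial ≤
      (cnt N (sa : El A k K r M j) (z i) : ℝ) + cnt N (sb : El A k K r M j) (z i)) :
    (N + k * D) * N.factorial ≤
      ({L : El A k K r M j → ℕ | IsLabeling L ∧ Tangled L}.ncard : ℝ) := by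
  have hF : (0 : ℝ) < N.factorial := by exact_mod_cast N.factorial_pos
  let h : El A k K r M j → ℝ := fun e => (cnt N sa e : ℝ) + cnt N sb e -
    N.factorial * (1 - (if e = sa then 1 else 0) - (if e = sb then 1 else 0))
  have h0 : ∀ e, 0 ≤ h e := by
    intro e
    have n1 : (0 : ℝ) ≤ cnt N sa e := Nat.cast_nonneg _
    have n2 : (0 : ℝ) ≤ cnt N sb e := Nat.cast_nonneg _
    by_cases h1 : e = sa
    · subst h1
      simp only [h, if_true, reduceCtorEq, if_false]
      linarith
    by_cases h2 : e = sb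
    · subst h2
      simp only [h, if_true, reduceCtorEq, if_false]
      linarith
    simp only [h, h1, h2, if_false]
    cases h3 : isZ e with
    | false =>
      have := cnt_other hq hN e h1 h2 h3
      linarith
    | true =>
      cases e with
      | z i =>
        have := hz i
        nlinarith
      | _ => simp [isZ] at h3
  have h1 : ∑ i : Fin k, h (z i) ≤ ∑ e, h e := by
    rw [← Finset.sum_image (s := Finset.univ) (g := fun i : Fin k => (z i : El A k K r M j))
      (f := h) (fun _ _ _ _ h => by simpa using h)]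
    exact Finset.sum_le_sum_of_subset_of_nonneg (Finset.subset_univ _) (fun e _ _ => h0 e)
  have h2 : (k : ℝ) * (D * N.factorial) ≤ ∑ i : Fin k, h (z i) := by
    have : ∑ _i : Fin k, D * (N.factorial : ℝ) ≤ ∑ i : Fin k, h (z i) :=
      Finset.sum_le_sum (fun i _ => by
        have := hz i
        simp only [h, reduceCtorEq, if_false]
        linarith)
    simpa using this
  have h3 : ∑ e, h e = ∑ e : El A k K r M j, (cnt N sa e : ℝ) +
      ∑ e : El A k K r M j, (cnt N sb e : ℝ) - N.factorial * N := by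
    simp only [h, Finset.sum_sub_distrib, Finset.sum_add_distrib, ← Finset.mul_sum]
    simp [hN]
    left
    ring
  have h4 : ∑ e : El A k K r M j, cnt N sa e + ∑ e : El A k K r M j, cnt N sb e ≤
      {L : El A k K r M j → ℕ | IsLabeling L ∧ Tangled L}.ncard := by
    refine le_trans ?_ (count_ge N)
    rw [Fintype.sum_prod_type, ← Finset.sum_pair (f := fun a : El A k K r M j =>
      ∑ e : El A k K r M j, cnt N a e) (a := sa) (b := sb) (by simp)]
    exact Finset.sum_le_sum_of_subset (Finset.subset_univ _)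
  have h5 : ∑ e : El A k K r M j, (cnt N sa e : ℝ) + ∑ e : El A k K r M j, (cnt N sb e : ℝ) ≤
      ({L : El A k K r M j → ℕ | IsLabeling L ∧ Tangled L}.ncard : ℝ) := by exact_mod_cast h4
  nlinarith

theorem top_gain (n : ℕ) (hn : 10000000 ≤ n) (a q3 : ℝ) (hq : IsW (qw a q3 (36 / n)))
    (hN : Fintype.card (El 30 (n + 1) K r M j) = N + 2)
    (hbad : Pr (qw a q3 (36 / n))
      (fun β : El 30 (n + 1) K r M j → Fin 5 => ¬ Good (ph β)) ≤ 0.002)
    (hK : ((n + 1 : ℕ) : ℝ) ^ 2 ≤ 0.001 * K) (i0 : Fin (n + 1)) :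
    (1 + 0.0007) * (N.factorial : ℝ) ≤ (cnt N (sa : El 30 (n + 1) K r M j) (z i0) : ℝ) +
      cnt N (sb : El 30 (n + 1) K r M j) (z i0) := by
  set q := qw a q3 (36 / n) with hqd
  have hF : (0 : ℝ) < N.factorial := by exact_mod_cast N.factorial_pos
  have e4 : qs q (fun b => (b : ℕ) = 4) = 36 / n := by
    rw [hqd, qs_qw a q3 (36 / n) (fun b => b = 4)]; simp [ind]
  have hc : Fintype.card {i : Fin (n + 1) // i ≠ i0} = n := by simp
  have c31 := pr_count' hq _ (zinj (A := 30) (K := K) (r := r) (M := M) (j := j) i0)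
    (fun b => (b : ℕ) = 4) 31
  have c30 := pr_count' hq _ (zinj (A := 30) (K := K) (r := r) (M := M) (j := j) i0)
    (fun b => (b : ℕ) = 4) 30
  have c61 := pr_tail' hq _ (zinj (A := 30) (K := K) (r := r) (M := M) (j := j) i0)
    (fun b => (b : ℕ) = 4) 61 (25 / 36) (by norm_num)
  rw [e4, hc] at c31 c30 c61
  have g1 := binom_gap n hn _ rfl
  have g2 := binom_tail n (by omega) _ rfl _ c61
  rw [← c31, ← c30] at g1
  change _ ≤ Pr q (fun β => Zc i0 β = 31) - Pr q (fun β => Zc i0 β = 30) at g1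
  change Pr q (fun β => 61 ≤ Zc i0 β) ≤ _ at g2
  have s1 := cnt_one hq hN i0
  have s2 := cnt_two hq hN i0
  have s3 := adj_bound hN i0
  have t1 : Pr q (fun β : El 30 (n + 1) K r M j → Fin 5 => Zc i0 β = 31) ≤
      Pr q (fun β => Good (ph β) ∧ Zc i0 β = 30 + 1) + 0.002 :=
    (pr_mono hq (fun β h => by tauto)).trans (pr_or_le hq le_rfl hbad)
  have t2 : (1 : ℝ) ≤ Pr q (fun β : El 30 (n + 1) K r M j → Fin 5 =>
      Good (ph β) ∧ Zc i0 β ≠ 30 ∧ Zc i0 β ≤ 2 * 30) + (0.002 +
        (Pr q (fun β : El 30 (n + 1) K r M j → Fin 5 => Zc i0 β = 30) + 0.001)) := by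
    rw [← pr_true (E := El 30 (n + 1) K r M j) hq]
    refine (pr_mono hq (fun β _ => ?_)).trans
      (pr_or_le hq le_rfl (pr_or_le hq hbad (pr_or_le hq le_rfl g2)))
    by_cases h1 : Good (ph β)
    · by_cases h2 : Zc i0 β = 30
      · tauto
      · by_cases h3 : 61 ≤ Zc i0 β
        · tauto
        · exact Or.inl ⟨h1, h2, by omega⟩
    · tauto
  have hKN : (K : ℝ) ≤ (N : ℝ) - 1 := by
    have := card_ge (A := 30) (k := n + 1) (K := K) (r := r) (M := M) (j := j)
    have h1 : K + 1 ≤ N := by omega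
    have h2 : (K : ℝ) + 1 ≤ N := by exact_mod_cast h1
    linarith
  have hK0 : (0 : ℝ) < K := by
    have : (0 : ℝ) < ((n + 1 : ℕ) : ℝ) ^ 2 := by positivity
    linarith
  set B : ℝ := (({o : Fin N ≃ {g : El 30 (n + 1) K r M j // g ≠ sb ∧ g ≠ z i0} |
      ¬ NoAdj (wd o)}.ncard : ℕ) : ℝ) with hB
  have hB0 : 0 ≤ B := Nat.cast_nonneg _
  have s4 : B ≤ 0.001 * N.factorial := by
    refine le_of_mul_le_mul_left ?_ hK0
    calc (K : ℝ) * B ≤ ((N : ℝ) - 1) * B := mul_le_mul_of_nonneg_right hKN hB0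
      _ ≤ ((n + 1 : ℕ) : ℝ) ^ 2 * N.factorial := s3
      _ ≤ 0.001 * K * N.factorial := mul_le_mul_of_nonneg_right hK hF.le
      _ = _ := by ring
  have u1 := mul_le_mul_of_nonneg_right t1 hF.le
  have u2 := mul_le_mul_of_nonneg_right t2 hF.le
  have u3 := mul_le_mul_of_nonneg_right g1 hF.le
  linarith

theorem conn (p p' : El A (k + 1) K r M j) :
    Relation.ReflTransGen (fun a b => a ≤ b ∨ b ≤ a) p p' := by
  have h0 : (sa : El A (k + 1) K r M j) ≤ z 0 := (lt_z.2 rfl).le
  have h1 : ∀ g : El A (k + 1) K r M j, g ≤ z 0 ∨ sa ≤ g := by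
    intro g
    cases g with
    | sb => exact Or.inl (lt_z.2 rfl).le
    | x i => exact Or.inl (lt_z.2 rfl).le
    | sa => exact Or.inr le_rfl
    | _ => exact Or.inr (le_of_lt (by rw [lt_iff]; rfl))
  have h2 : Relation.ReflTransGen (fun a b : El A (k + 1) K r M j => a ≤ b ∨ b ≤ a) p sa := by
    rcases h1 p with h | h
    · exact Relation.ReflTransGen.head (b := z 0) (Or.inl h) (.single (Or.inr h0))
    · exact Relation.ReflTransGen.single (Or.inr h)
  refine h2.trans ?_
  rcases h1 p' with h | h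
  · exact Relation.ReflTransGen.head (b := z 0) (Or.inl h0) (.single (Or.inr h))
  · exact Relation.ReflTransGen.single (Or.inl h)

theorem counterexample : ∃ (k K r M j : ℕ), 1 ≤ Fintype.card (El 30 (k + 1) K r M j) ∧
    (Fintype.card (El 30 (k + 1) K r M j) - 1).factorial <
      {L : El 30 (k + 1) K r M j → ℕ | IsLabeling L ∧ Tangled L}.ncard := by
  obtain ⟨n, hn⟩ : ∃ n : ℕ, n = 10000000 := ⟨_, rfl⟩
  have hn' : (n : ℝ) = 10000000 := by rw [hn]; norm_num
  have h4 : (36 : ℝ) / n = 0.0000036 := by rw [hn']; norm_num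
  obtain ⟨a, q3, K, r, j, M, ha, h3, b1, b2, b3, b4, b5, b6, b7⟩ :=
    choose_params (n + 1) (by omega) 0.0002 (36 / n) (by norm_num) (by norm_num)
      (by rw [h4]; norm_num) (by rw [h4]; norm_num)
  have hk : ((n + 1 : ℕ) : ℝ) = 10000001 := by push_cast; rw [hn']; norm_num
  have hs : a + a + q3 ≤ 0.0000000001 := by
    rw [hk] at b1
    linarith
  have hq : IsW (qw a q3 (36 / n)) := qw_isW ha.le h3.le (by rw [h4]; norm_num)
    (by rw [h4]; linarith)
  have hc := card_ge (A := 30) (k := n + 1) (K := K) (r := r) (M := M) (j := j)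
  obtain ⟨N, hN⟩ : ∃ N, Fintype.card (El 30 (n + 1) K r M j) = N + 2 :=
    ⟨Fintype.card (El 30 (n + 1) K r M j) - 2, by omega⟩
  have hbad := pr_bad (A := 30) (k := n + 1) (K := K) (r := r) (M := M) (j := j) hq
  have hbad' : Pr (qw a q3 (36 / n))
      (fun β : El 30 (n + 1) K r M j → Fin 5 => ¬ Good (ph β)) ≤ 0.002 := by
    refine hbad.trans ?_
    have : (((30 : ℕ) : ℝ) + 3) * (a + a + q3 + 36 / n) ≤ 0.0002 := by
      rw [h4]
      push_cast
      linarith
    linarith
  have hK0 : (0 : ℝ) ≤ K := Nat.cast_nonneg _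
  have ht := total hq hN 0.0007 (by norm_num)
    (top_gain n hn.ge a q3 hq hN hbad' (by linarith))
  refine ⟨n, K, r, M, j, by omega, ?_⟩
  have hF : (0 : ℝ) < N.factorial := by exact_mod_cast N.factorial_pos
  have h5 : Fintype.card (El 30 (n + 1) K r M j) - 1 = N + 1 := by omega
  rw [h5, Nat.factorial_succ, ← Nat.cast_lt (α := ℝ)]
  refine lt_of_lt_of_le ?_ ht
  rw [hk]
  push_cast
  nlinarith

end Pool.Agent.Lib.MP_ac744f_co
end
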